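import Pool.Agent.Helper16.CE.Top
import Pool.Agent.Helper96.CE.TB1
import Pool.Agent.Helper96.CE.Mo
import Pool.Agent.Helper78.CE.TB2
import Pool.Agent.Helper78.CE.TD
import Pool.Agent.Helper78.CE.Cov
import Pool.Agent.Helper17.CE.In

set_option autoImplicit false

namespace Pool.Agent.Helper16.CE
open MeasureTheory
open Pool.Agent.Helper78.CE (P_eq)
open scoped ENNReal

section gen
variable {A : Type*} [NormedRing A] [CompleteSpace A]

omit [CompleteSpace A] in
theorem gen_inv_sub (x y : A) (hx : IsUnit x) (hy : IsUnit y) :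
    Ring.inverse x - Ring.inverse y = Ring.inverse x * (y - x) * Ring.inverse y := by
  rw [mul_sub, sub_mul, Ring.inverse_mul_cancel x hx, mul_assoc, Ring.mul_inverse_cancel y hy,
    mul_one, one_mul]

theorem gen_inv_pert (x y : A) (hx : IsUnit x) (K : ℝ) (hK0 : 0 < K)
    (hK : ‖Ring.inverse x‖ ≤ K) (h : ‖y - x‖ ≤ 1 / (2 * K)) :
    IsUnit y ∧ ‖Ring.inverse y‖ ≤ 2 * K := by
  set z := Ring.inverse x * (x - y) with hz
  have hz1 : ‖z‖ ≤ 1 / 2 := by
    calc ‖z‖ ≤ ‖Ring.inverse x‖ * ‖x - y‖ := norm_mul_le _ _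
      _ ≤ K * (1 / (2 * K)) := by
          rw [norm_sub_rev x y]; gcongr
      _ = 1 / 2 := by field_simp
  have hy : y = x * (1 - z) := by
    rw [hz, mul_sub, mul_one, ← mul_assoc, Ring.mul_inverse_cancel x hx, one_mul]; abel
  have hu : IsUnit (1 - z) := by
    exact (Units.oneSub z (by linarith)).isUnit
  have hyu : IsUnit y := by rw [hy]; exact hx.mul hu
  refine ⟨hyu, ?_⟩
  have h1 : Ring.inverse y = Ring.inverse x + z * Ring.inverse y := by
    have := gen_inv_sub y x hyu hx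
    have h2 := gen_inv_sub x y hx hyu
    have h3 : z * Ring.inverse y = - (Ring.inverse x * (y - x) * Ring.inverse y) := by
      rw [hz, ← neg_sub y x, mul_neg, neg_mul]
    rw [h3, ← h2]; abel
  have h2 : ‖Ring.inverse y‖ ≤ K + 1 / 2 * ‖Ring.inverse y‖ := by
    calc ‖Ring.inverse y‖ = ‖Ring.inverse x + z * Ring.inverse y‖ := by rw [← h1]
      _ ≤ ‖Ring.inverse x‖ + ‖z * Ring.inverse y‖ := norm_add_le _ _
      _ ≤ K + ‖z‖ * ‖Ring.inverse y‖ := by gcongr; exact norm_mul_le _ _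
      _ ≤ _ := by gcongr
  linarith

theorem gen_inv_diff [NormedAlgebra ℂ A] (g : ℂ → A) (z : ℂ) (hg : DifferentiableAt ℂ g z)
    (hu : IsUnit (g z)) : DifferentiableAt ℂ (fun z => Ring.inverse (g z)) z := by
  obtain ⟨v, hv⟩ := hu
  have h1 : DifferentiableAt ℂ (Ring.inverse : A → A) (g z) := by
    rw [← hv]
    exact (hasFDerivAt_ringInverse (𝕜 := ℂ) v).differentiableAt
  exact h1.comp z hg

end gen

theorem inv_pert (x y : S →L[ℂ] S) (hx : IsUnit x) (K : ℝ) (hK0 : 0 < K)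
    (hK : ‖Ring.inverse x‖ ≤ K) (h : ‖y - x‖ ≤ 1 / (2 * K)) :
    IsUnit y ∧ ‖Ring.inverse y‖ ≤ 2 * K := gen_inv_pert x y hx K hK0 hK h

theorem inv_sub (x y : S →L[ℂ] S) (hx : IsUnit x) (hy : IsUnit y) :
    Ring.inverse x - Ring.inverse y = Ring.inverse x * (y - x) * Ring.inverse y :=
  gen_inv_sub x y hx hy

theorem inv_app (x : S →L[ℂ] S) (hx : IsUnit x) (u : S) : x (Ring.inverse x u) = u := by
  rw [← ContinuousLinearMap.mul_apply, Ring.mul_inverse_cancel x hx]; rfl

theorem app_inv (x : S →L[ℂ] S) (hx : IsUnit x) (u : S) : Ring.inverse x (x u) = u := by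
  rw [← ContinuousLinearMap.mul_apply, Ring.inverse_mul_cancel x hx]; rfl

theorem inv_comm (x x' R : S →L[ℂ] S) (hx : IsUnit x) (hx' : IsUnit x')
    (h : ∀ u, R (x u) = x' (R u)) (u : S) : R (Ring.inverse x u) = Ring.inverse x' (R u) := by
  have h1 := h (Ring.inverse x u)
  rw [inv_app x hx] at h1
  rw [h1, app_inv x' hx']

theorem inv_diff (g : ℂ → (S →L[ℂ] S)) (z : ℂ) (hg : DifferentiableAt ℂ g z)
    (hu : IsUnit (g z)) : DifferentiableAt ℂ (fun z => Ring.inverse (g z)) z :=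
  gen_inv_diff g z hg hu

/-! ### the 2x2 determinant -/

/-- the determinant -/
noncomputable def Fd (c0 : ℝ) (B : S →L[ℂ] S) : ℂ :=
  (1 - c0 * nuP (Ring.inverse B psiP)) * (1 - c0 * nuM (Ring.inverse B psiM)) -
    (c0 * nuP (Ring.inverse B psiM)) * (c0 * nuM (Ring.inverse B psiP))

theorem sol_of_Fd (c0 : ℝ) (X : S →L[ℂ] S) (hB : IsUnit (1 + X + (c0 : ℂ) • P))
    (δ : ℝ) (hδ : 0 < δ) (h1 : nuP psiP = δ) (h2 : nuM psiM = δ) (h3 : nuP psiM = 0)
    (h4 : nuM psiP = 0) (hF : Fd c0 (1 + X + (c0 : ℂ) • P) = 0) :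
    ∃ u : S, u ≠ 0 ∧ u + X u = 0 := by
  set B := 1 + X + (c0 : ℂ) • P with hBdef
  set M : Matrix (Fin 2) (Fin 2) ℂ :=
    !![1 - c0 * nuP (Ring.inverse B psiP), - (c0 * nuP (Ring.inverse B psiM));
       - (c0 * nuM (Ring.inverse B psiP)), 1 - c0 * nuM (Ring.inverse B psiM)] with hM
  have hdet : M.det = 0 := by
    rw [hM, Matrix.det_fin_two_of]
    unfold Fd at hF
    linear_combination hF
  obtain ⟨a, ha, hMa⟩ := Matrix.exists_mulVec_eq_zero_iff.2 hdet
  have r0 := congrFun hMa 0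
  have r1 := congrFun hMa 1
  simp [hM, Matrix.mulVec, dotProduct, Fin.sum_univ_two] at r0 r1
  set y : S := a 0 • psiP + a 1 • psiM with hy
  set u : S := Ring.inverse B y with hu
  have hBu : B u = y := inv_app B hB y
  have e0 : c0 * nuP u = a 0 := by
    rw [hu, hy, map_add, map_smul, map_smul, map_add, map_smul, map_smul, smul_eq_mul,
      smul_eq_mul]
    linear_combination - r0
  have e1 : c0 * nuM u = a 1 := by
    rw [hu, hy, map_add, map_smul, map_smul, map_add, map_smul, map_smul, smul_eq_mul,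
      smul_eq_mul]
    linear_combination - r1
  have hPu : (c0 : ℂ) • P u = y := by
    rw [P_eq, hy, ← e0, ← e1]
    simp only [ContinuousLinearMap.add_apply, ContinuousLinearMap.smulRight_apply, smul_add,
      smul_smul]
  refine ⟨u, ?_, ?_⟩
  · intro hu0
    apply ha
    have hy0 : y = 0 := by rw [← hBu, hu0, map_zero]
    have q0 : nuP y = 0 := by rw [hy0, map_zero]
    have q1 : nuM y = 0 := by rw [hy0, map_zero]
    rw [hy, map_add, map_smul, map_smul, h1, h3] at q0
    rw [hy, map_add, map_smul, map_smul, h2, h4] at q1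
    have hδ' : (δ : ℂ) ≠ 0 := by exact_mod_cast hδ.ne'
    have a0 : a 0 = 0 := by simpa [hδ'] using q0
    have a1 : a 1 = 0 := by simpa [hδ'] using q1
    funext i; fin_cases i
    · exact a0
    · exact a1
  · have h5 : B u = u + X u + (c0 : ℂ) • P u := by
      rw [hBdef]; simp [ContinuousLinearMap.add_apply]
    rw [hBu, hPu] at h5
    have : u + X u + y = y := h5.symm
    simpa using this

end Pool.Agent.Helper16.CE
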