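import Pool.Agent.Helper16.CE.Defs

set_option autoImplicit false

namespace Pool.Agent.Helper16.CE
open MeasureTheory
open scoped ENNReal

theorem ev_add (u v : S) (x : E3) : ev (u + v) x = ev u x + ev v x := by
  simp [ev]

theorem ev_sub (u v : S) (x : E3) : ev (u - v) x = ev u x - ev v x := by
  simp [ev]

theorem ev_neg (u : S) (x : E3) : ev (-u) x = - ev u x := by
  simp [ev]

theorem ev_zero (x : E3) : ev 0 x = 0 := by
  simp [ev]

theorem ev_smul (c : ℂ) (u : S) (x : E3) : ev (c • u) x = c * ev u x := by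
  simp [ev]

theorem ev_le (u : S) (x : E3) : ‖ev u x‖ ≤ ‖u‖ :=
  lp.norm_apply_le_norm (by simp) (u : lp (fun _ : E3 => ℂ) ∞) x

theorem norm_le_ev (u : S) (C : ℝ) (hC : 0 ≤ C) (h : ∀ x, ‖ev u x‖ ≤ C) : ‖u‖ ≤ C :=
  lp.norm_le_of_forall_le hC h

theorem ev_ext {u v : S} (h : ∀ x, ev u x = ev v x) : u = v := by
  apply Subtype.ext
  apply lp.ext
  funext x
  exact h x

theorem cls_ev (u : S) : Cls (ev u) := u.2

theorem meas_ev (u : S) : Measurable (ev u) := u.2.meas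

theorem exists_ev (u : E3 → ℂ) (hu : Cls u) (C : ℝ) (hb : ∀ x, ‖u x‖ ≤ C) :
    ∃ U : S, ∀ x, ev U x = u x := by
  have hmem : Memℓp u ∞ := by
    rw [memℓp_infty_iff]
    exact ⟨C, by rintro _ ⟨x, rfl⟩; exact hb x⟩
  exact ⟨⟨⟨u, hmem⟩, hu⟩, fun x => rfl⟩

theorem isClosed_S : IsClosed ((S : Submodule ℂ (lp (fun _ : E3 => ℂ) ∞)) :
    Set (lp (fun _ : E3 => ℂ) ∞)) := by
  rw [← isSeqClosed_iff_isClosed]
  intro s a hs ha
  have hpt : ∀ x, Filter.Tendsto (fun n => (s n : E3 → ℂ) x) Filter.atTop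
      (nhds ((a : E3 → ℂ) x)) := by
    intro x
    rw [tendsto_iff_norm_sub_tendsto_zero] at ha ⊢
    refine squeeze_zero (fun n => norm_nonneg _) (fun n => ?_) ha
    have := lp.norm_apply_le_norm (p := ∞) (by simp) (s n - a) x
    simpa using this
  refine ⟨?_, ?_, ?_⟩
  · exact measurable_of_tendsto_metrizable (fun n => (hs n).meas) (tendsto_pi_nhds.2 hpt)
  · intro x
    have h1 := hpt (-x)
    have h2 := (hpt x).neg
    have h3 : (fun n => (s n : E3 → ℂ) (-x)) = fun n => - (s n : E3 → ℂ) x := by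
      funext n; exact (hs n).neg x
    rw [h3] at h1
    exact tendsto_nhds_unique h1 h2
  · intro x
    have h1 := hpt (rf 2 x)
    have h2 := (hpt x)
    have h3 : (fun n => (s n : E3 → ℂ) (rf 2 x)) = fun n => (s n : E3 → ℂ) x := by
      funext n; exact (hs n).refl x
    rw [h3] at h1
    exact tendsto_nhds_unique h1 h2

noncomputable instance : CompleteSpace S := isClosed_S.completeSpace_coe

/-- construction of an operator on `S` from its action on functions -/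
theorem exists_op (F : S → E3 → ℂ) (C : ℝ) (hC : 0 ≤ C) (hcls : ∀ u, Cls (F u))
    (hb : ∀ u x, ‖F u x‖ ≤ C * ‖u‖) (hadd : ∀ u v x, F (u + v) x = F u x + F v x)
    (hsm : ∀ (c : ℂ) u x, F (c • u) x = c * F u x) :
    ∃ L : S →L[ℂ] S, (∀ (u : S) (x : E3), ev (L u) x = F u x) ∧ ‖L‖ ≤ C := by
  have h1 : ∀ u, ∃ U : S, ∀ x, ev U x = F u x := fun u => exists_ev _ (hcls u) _ (hb u)
  choose G hG using h1
  let L0 : S →ₗ[ℂ] S :=
    { toFun := G
      map_add' := fun u v => ev_ext fun x => by rw [hG, ev_add, hG, hG, hadd]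
      map_smul' := fun c u => ev_ext fun x => by
        rw [hG, hsm]; simp only [RingHom.id_apply]; rw [ev_smul, hG] }
  have hL0 : ∀ u, ‖L0 u‖ ≤ C * ‖u‖ := fun u =>
    norm_le_ev _ _ (by positivity) (fun x => by
      have : ev (L0 u) x = F u x := hG u x
      rw [this]; exact hb u x)
  exact ⟨L0.mkContinuous C hL0, fun u x => hG u x, LinearMap.mkContinuous_norm_le _ hC _⟩

theorem exists_fun (F : S → ℂ) (C : ℝ) (hC : 0 ≤ C) 
    (hb : ∀ u, ‖F u‖ ≤ C * ‖u‖) (hadd : ∀ u v, F (u + v) = F u + F v)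
    (hsm : ∀ (c : ℂ) u, F (c • u) = c * F u) :
    ∃ L : S →L[ℂ] ℂ, (∀ (u : S), L u = F u) ∧ ‖L‖ ≤ C := by
  let L0 : S →ₗ[ℂ] ℂ :=
    { toFun := F
      map_add' := hadd
      map_smul' := fun c u => by rw [hsm]; simp }
  exact ⟨L0.mkContinuous C hb, fun u => rfl, LinearMap.mkContinuous_norm_le _ hC _⟩

theorem opNorm_le_ev (L : S →L[ℂ] S) (C : ℝ) (hC : 0 ≤ C)
    (h : ∀ u x, ‖ev (L u) x‖ ≤ C * ‖u‖) : ‖L‖ ≤ C :=
  ContinuousLinearMap.opNorm_le_bound _ hC (fun u => norm_le_ev _ _ (by positivity) (h u))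

/-! ### symmetries of integrals -/

theorem integral_neg_E3 (f : E3 → ℂ) : ∫ x, f (-x) = ∫ x, f x :=
  integral_neg_eq_self f volume

theorem integral_iso (L : E3 ≃ₗᵢ[ℝ] E3) (f : E3 → ℂ) : ∫ x, f (L x) = ∫ x, f x :=
  (L.measurePreserving).integral_comp L.toHomeomorph.measurableEmbedding f

end Pool.Agent.Helper16.CE
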