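import Pool.Agent.Helper16.CE.Abs
import Pool.Agent.Helper96.CE.IN1

set_option autoImplicit false

namespace Pool.Agent.Helper16.CE
open MeasureTheory
open Pool.Agent.Helper96.CE (inner_f T_add T_smul T_norm T_sub_zero T_far)
open Pool.Agent.Helper78.CE (pot_vv pot_Q P_eq Rot_T Rot_psiP Rot_psiM nuP_Rot nuM_Rot Q_rot)
open Pool.Agent.Helper17.CE (inner_unit)
open scoped ENNReal

/-- the data of the inner problem -/
structure Dat where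
  f : E3 → ℝ
  f1 : ℝ
  f2 : ℝ
  hf : Measurable f
  hf1 : 0 < f1
  hf12 : ∀ x, f1 ≤ f x ∧ f x ≤ f2
  hfi : ∀ (L : E3 ≃ₗᵢ[ℝ] E3) x, f (L x) = f x
  hpsi : ∀ (j : Fin 3) (x : E3), ‖x‖ < 1 →
      ∫ y in Metric.ball (0 : E3) 1, gk 0 ‖x - y‖ * (y j : ℂ) = (f x : ℂ) * (x j : ℂ)
  c0 : ℝ
  hc0 : 0 < c0
  hunit : IsUnit (1 + T 0 (vv f) + (c0 : ℂ) • P)

theorem exists_Dat : Nonempty Dat := by
  obtain ⟨f, f1, f2, hf, hf1, hf12, hfi, hpsi⟩ := inner_f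
  obtain ⟨c0, hc0, hunit⟩ := inner_unit f f1 f2 hf hf1 hf12 hfi hpsi
  exact ⟨⟨f, f1, f2, hf, hf1, hf12, hfi, hpsi, c0, hc0, hunit⟩⟩

theorem opn_add (X Y : S →L[ℂ] S) : ‖X + Y‖ ≤ ‖X‖ + ‖Y‖ := ContinuousLinearMap.opNorm_add_le X Y
theorem opn_smul (c : ℂ) (X : S →L[ℂ] S) : ‖c • X‖ ≤ ‖c‖ * ‖X‖ :=
  ContinuousLinearMap.opNorm_smul_le c X
theorem op_zero_smul (X : S →L[ℂ] S) : (0 : ℂ) • X = 0 := by
  ext1 u; simp
theorem op_neg_one_smul (X : S →L[ℂ] S) : (-1 : ℂ) • X = - X := by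
  ext1 u; simp
theorem op_smul_sub (c : ℂ) (X Y : S →L[ℂ] S) : c • (X - Y) = c • X - c • Y := by
  ext1 u; simp [smul_sub]

/-- the inner potential -/
noncomputable def Vc (f : E3 → ℝ) (c : ℂ) (x : E3) : ℂ := vv f x + c * Q x

theorem vv_out (f : E3 → ℝ) (x : E3) (hx : 1 ≤ ‖x‖) : vv f x = 0 := by
  unfold vv; rw [if_neg (not_lt.2 hx)]

theorem Q_out (x : E3) (hx : 1 ≤ ‖x‖) : Q x = 0 := by
  unfold Q; rw [if_neg (not_lt.2 hx)]

theorem Vc_out (f : E3 → ℝ) (c : ℂ) (x : E3) (hx : 1 ≤ ‖x‖) : Vc f c x = 0 := by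
  unfold Vc; rw [vv_out f x hx, Q_out x hx]; ring

theorem pot_smul {V : E3 → ℂ} (hV : Pot V) (c : ℂ) : Pot (fun x => c * V x) := by
  obtain ⟨C, hC⟩ := hV.bdd
  refine ⟨measurable_const.mul hV.meas, ⟨‖c‖ * C, fun x => ?_⟩, hV.int.const_mul c, ?_, ?_⟩
  · rw [norm_mul]; gcongr; exact hC x
  · intro x; simp only [hV.neg]
  · intro x; simp only [hV.refl]

theorem pot_add {V W : E3 → ℂ} (hV : Pot V) (hW : Pot W) : Pot (fun x => V x + W x) := by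
  obtain ⟨C, hC⟩ := hV.bdd
  obtain ⟨C', hC'⟩ := hW.bdd
  refine ⟨hV.meas.add hW.meas, ⟨C + C', fun x => ?_⟩, hV.int.add hW.int, ?_, ?_⟩
  · exact (norm_add_le _ _).trans (add_le_add (hC x) (hC' x))
  · intro x; simp only [hV.neg, hW.neg]
  · intro x; simp only [hV.refl, hW.refl]

theorem pot_sub {V W : E3 → ℂ} (hV : Pot V) (hW : Pot W) : Pot (fun x => V x - W x) := by
  have := pot_add hV (pot_smul hW (-1))
  have e : (fun x => V x - W x) = fun x => V x + (-1) * W x := by funext x; ring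
  rw [e]; exact this

theorem T_sub (k : ℂ) (hk : 0 ≤ k.im) (V W : E3 → ℂ) (hV : Pot V) (hW : Pot W) :
    T k (fun x => V x - W x) = T k V - T k W := by
  have e : (fun x => V x - W x) = fun x => V x + (-1) * W x := by funext x; ring
  rw [e, T_add k hk V _ hV (pot_smul hW (-1)), T_smul k hk (-1) W hW, op_neg_one_smul,
    sub_eq_add_neg]

namespace Dat
variable (D : Dat)

theorem pv : Pot (vv D.f) := pot_vv D.f D.f1 D.f2 D.hf D.hf1 D.hf12 D.hfi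

theorem pVc (c : ℂ) : Pot (Vc D.f c) := pot_add D.pv (pot_smul pot_Q c)

theorem T_Vc (k : ℂ) (hk : 0 ≤ k.im) (c : ℂ) :
    T k (Vc D.f c) = T k (vv D.f) + c • T k Q := by
  have : Vc D.f c = fun x => vv D.f x + (fun x => c * Q x) x := rfl
  rw [this, T_add k hk _ _ D.pv (pot_smul pot_Q c), T_smul k hk c Q pot_Q]

/-- the inner operator -/
noncomputable def A (c k : ℂ) : S →L[ℂ] S := 1 + T k (Vc D.f c) + (D.c0 : ℂ) • P

theorem A_eq (c k : ℂ) (hk : 0 ≤ k.im) :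
    D.A c k = 1 + T k (vv D.f) + (D.c0 : ℂ) • P + c • T k Q := by
  unfold A; rw [D.T_Vc k hk]; abel

theorem unit00 : IsUnit (D.A 0 0) := by
  have h : D.A 0 0 = 1 + T 0 (vv D.f) + (D.c0 : ℂ) • P := by
    rw [D.A_eq 0 0 (by simp), op_zero_smul, add_zero]
  rw [h]
  exact D.hunit

theorem A_bds : ∃ K k0 c1 Ca : ℝ, 1 ≤ K ∧ 0 < k0 ∧ k0 ≤ 1 ∧ 0 < c1 ∧ 0 < Ca ∧
    (∀ c k : ℂ, 0 ≤ k.im → ‖k‖ ≤ k0 → ‖c‖ < c1 →
      IsUnit (D.A c k) ∧ ‖Ring.inverse (D.A c k)‖ ≤ K) ∧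
    (∀ c k : ℂ, 0 ≤ k.im → ‖c‖ < c1 → ‖D.A c k - D.A c 0‖ ≤ Ca * ‖k‖ ^ 2) := by
  obtain ⟨C1, hC1, h1⟩ := T_sub_zero (vv D.f) D.pv (vv_out D.f)
  obtain ⟨C2, hC2, h2⟩ := T_sub_zero Q pot_Q Q_out
  obtain ⟨C3, hC3, h3⟩ := T_norm Q pot_Q
  set K0 : ℝ := max 1 ‖Ring.inverse (D.A 0 0)‖ with hK0
  have hK01 : 1 ≤ K0 := le_max_left _ _
  have hz : (0 : ℝ) ≤ (0 : ℂ).im := by simp
  have hdiff : ∀ c k : ℂ, 0 ≤ k.im → ‖D.A c k - D.A 0 0‖ ≤ C1 * ‖k‖ ^ 2 + ‖c‖ * C3 := by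
    intro c k hk
    have e : D.A c k - D.A 0 0 = (T k (vv D.f) - T 0 (vv D.f)) + c • T k Q := by
      rw [D.A_eq c k hk, D.A_eq 0 0 hz, op_zero_smul]; abel
    rw [e]
    refine (opn_add _ _).trans (add_le_add (h1 k hk) ?_)
    exact (opn_smul _ _).trans (by gcongr; exact h3 k hk)
  refine ⟨2 * K0, min 1 (1 / (4 * K0 * C1 + 1)), 1 / (4 * K0 * C3), C1 + 1 / (4 * K0 * C3) * C2,
    by linarith, by positivity, min_le_left _ _, by positivity, by positivity, ?_, ?_⟩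
  · intro c k hk hk0 hc
    refine inv_pert (D.A 0 0) (D.A c k) D.unit00 K0 (by linarith) (le_max_right _ _)
      ((hdiff c k hk).trans ?_)
    have hk1 : ‖k‖ ≤ 1 := hk0.trans (min_le_left _ _)
    have hk2 : ‖k‖ ≤ 1 / (4 * K0 * C1 + 1) := hk0.trans (min_le_right _ _)
    have a1 : C1 * ‖k‖ ^ 2 ≤ 1 / (4 * K0) := by
      have : ‖k‖ ^ 2 ≤ 1 / (4 * K0 * C1 + 1) := by
        calc ‖k‖ ^ 2 = ‖k‖ * ‖k‖ := sq _
          _ ≤ 1 * (1 / (4 * K0 * C1 + 1)) := by gcongr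
          _ = _ := one_mul _
      calc C1 * ‖k‖ ^ 2 ≤ C1 * (1 / (4 * K0 * C1 + 1)) := by gcongr
        _ ≤ 1 / (4 * K0) := by
            rw [mul_one_div, div_le_div_iff₀ (by positivity) (by positivity)]
            nlinarith
    have a2 : ‖c‖ * C3 ≤ 1 / (4 * K0) := by
      calc ‖c‖ * C3 ≤ (1 / (4 * K0 * C3)) * C3 := by gcongr
        _ = 1 / (4 * K0) := by field_simp
    calc C1 * ‖k‖ ^ 2 + ‖c‖ * C3 ≤ 1 / (4 * K0) + 1 / (4 * K0) := add_le_add a1 a2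
      _ = 1 / (2 * K0) := by field_simp; norm_num
  · intro c k hk hc
    have e : D.A c k - D.A c 0 = (T k (vv D.f) - T 0 (vv D.f)) + c • (T k Q - T 0 Q) := by
      rw [D.A_eq c k hk, D.A_eq c 0 hz, op_smul_sub]; abel
    rw [e]
    calc _ ≤ C1 * ‖k‖ ^ 2 + ‖c‖ * (C2 * ‖k‖ ^ 2) := by
          refine (opn_add _ _).trans (add_le_add (h1 k hk) ?_)
          exact (opn_smul _ _).trans (by gcongr; exact h2 k hk)
      _ ≤ C1 * ‖k‖ ^ 2 + (1 / (4 * K0 * C3)) * (C2 * ‖k‖ ^ 2) := by gcongr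
      _ = _ := by ring

/-! ### covariance -/

theorem Rot_P (α : ℝ) (u : S) : Rot α (P u) = P (Rot α u) := by
  rw [P_eq]
  simp only [ContinuousLinearMap.add_apply, ContinuousLinearMap.smulRight_apply, map_add,
    map_smul, Rot_psiP, Rot_psiM, nuP_Rot, nuM_Rot, smul_smul]
  congr 1 <;> · congr 1; ring

theorem Rot_A (α : ℝ) (c k : ℂ) (hk : 0 ≤ k.im) (u : S) :
    Rot α (D.A c k u) = D.A (Complex.exp (2 * (Complex.I * α)) * c) k (Rot α u) := by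
  unfold A
  simp only [ContinuousLinearMap.add_apply, ContinuousLinearMap.smul_apply, map_add, map_smul,
    ContinuousLinearMap.one_apply]
  rw [Rot_T α k hk _ (D.pVc c) u, Rot_P]
  have : (fun x => Vc D.f c (rot α x)) = Vc D.f (Complex.exp (2 * (Complex.I * α)) * c) := by
    funext x
    unfold Vc
    rw [Q_rot]
    have : vv D.f (rot α x) = vv D.f x := by
      unfold vv
      rw [LinearIsometryEquiv.norm_map, D.hfi]
    rw [this]; ring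
  rw [this]

theorem norm_exp_c (θ : ℝ) (c : ℂ) : ‖Complex.exp (Complex.I * θ) * c‖ = ‖c‖ := by
  rw [norm_mul, Complex.norm_exp]
  simp

end Dat

end Pool.Agent.Helper16.CE
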