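import Pool.Agent.Helper16.CE.Cv

set_option autoImplicit false

namespace Pool.Agent.Helper16.CE
open MeasureTheory
open Pool.Agent.Helper96.CE (T_psi mom_Tv nu_psi T_smul)
open Pool.Agent.Helper78.CE (rot_const P_eq Rot_T Rot_psiP Rot_psiM nuP_Rot nuM_Rot)
open scoped ENNReal

theorem gen_aff {A : Type*} [NormedRing A] [NormedAlgebra ℂ A] (X Y : A) (z : ℂ) :
    DifferentiableAt ℂ (fun c : ℂ => X + c • Y) z :=
  (differentiableAt_id.smul_const Y).const_add X

theorem op_aff (X Y : S →L[ℂ] S) (z : ℂ) :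
    DifferentiableAt ℂ (fun c : ℂ => X + c • Y) z := gen_aff X Y z

namespace Dat
variable (D : Dat)

theorem A_diff_c (k : ℂ) (hk : 0 ≤ k.im) (c : ℂ) :
    DifferentiableAt ℂ (fun c => D.A c k) c := by
  have : (fun c => D.A c k) = fun c => (1 + T k (vv D.f) + (D.c0 : ℂ) • P) + c • T k Q := by
    funext c; exact D.A_eq c k hk
  rw [this]
  exact op_aff _ _ _

include D in
theorem exists_delta : ∃ δ : ℝ, 0 < δ ∧ nuP psiP = δ ∧ nuM psiM = δ ∧ nuP psiM = 0 ∧
    nuM psiP = 0 := nu_psi D.f D.f1 D.f2 D.hf D.hf1 D.hf12 D.hfi D.hpsi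

/-- `(Tv) psiP = - psiP` -/
theorem Tv_psiP : T 0 (vv D.f) psiP = - psiP := by
  unfold psiP
  rw [map_add, map_smul, T_psi D.f D.f1 D.f2 D.hf D.hf1 D.hf12 D.hfi D.hpsi 0 (by decide),
    T_psi D.f D.f1 D.f2 D.hf D.hf1 D.hf12 D.hfi D.hpsi 1 (by decide)]
  rw [smul_neg]; abel

theorem Tv_psiM : T 0 (vv D.f) psiM = - psiM := by
  unfold psiM
  rw [map_sub, map_smul, T_psi D.f D.f1 D.f2 D.hf D.hf1 D.hf12 D.hfi D.hpsi 0 (by decide),
    T_psi D.f D.f1 D.f2 D.hf D.hf1 D.hf12 D.hfi D.hpsi 1 (by decide)]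
  rw [smul_neg]; abel

theorem nuP_Tv (u : S) : nuP (T 0 (vv D.f) u) = - nuP u := by
  unfold nuP
  simp only [ContinuousLinearMap.smul_apply, ContinuousLinearMap.sub_apply, smul_eq_mul,
    mom_Tv D.f D.f1 D.f2 D.hf D.hf1 D.hf12 D.hfi D.hpsi]
  ring

theorem nuM_Tv (u : S) : nuM (T 0 (vv D.f) u) = - nuM u := by
  unfold nuM
  simp only [ContinuousLinearMap.smul_apply, ContinuousLinearMap.add_apply, smul_eq_mul,
    mom_Tv D.f D.f1 D.f2 D.hf D.hf1 D.hf12 D.hfi D.hpsi]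
  ring

theorem P_app (u : S) : P u = nuP u • psiP + nuM u • psiM := by
  rw [P_eq]; rfl

theorem A00_app (u : S) : D.A 0 0 u = u + T 0 (vv D.f) u + (D.c0 : ℂ) • P u := by
  have h : D.A 0 0 = 1 + T 0 (vv D.f) + (D.c0 : ℂ) • P := by
    rw [D.A_eq 0 0 (by simp), op_zero_smul, add_zero]
  rw [h]; rfl

section
variable (δ : ℝ) (hδ : 0 < δ) (h1 : nuP psiP = δ) (h2 : nuM psiM = δ) (h3 : nuP psiM = 0)
    (h4 : nuM psiP = 0)

include h1 h4 in
theorem A00_psiP : D.A 0 0 psiP = ((D.c0 * δ : ℝ) : ℂ) • psiP := by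
  rw [D.A00_app, D.Tv_psiP, P_app, h1, h4, zero_smul, add_zero, smul_smul]
  push_cast
  abel

include h2 h3 in
theorem A00_psiM : D.A 0 0 psiM = ((D.c0 * δ : ℝ) : ℂ) • psiM := by
  rw [D.A00_app, D.Tv_psiM, P_app, h2, h3, zero_smul, zero_add, smul_smul]
  push_cast
  abel

include h1 h3 in
theorem nuP_A00 (u : S) : nuP (D.A 0 0 u) = ((D.c0 * δ : ℝ) : ℂ) * nuP u := by
  rw [D.A00_app, map_add, map_add, D.nuP_Tv, map_smul, P_app, map_add, map_smul, map_smul, h1, h3]
  simp only [smul_eq_mul]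
  push_cast
  ring

include h2 h4 in
theorem nuM_A00 (u : S) : nuM (D.A 0 0 u) = ((D.c0 * δ : ℝ) : ℂ) * nuM u := by
  rw [D.A00_app, map_add, map_add, D.nuM_Tv, map_smul, P_app, map_add, map_smul, map_smul, h2, h4]
  simp only [smul_eq_mul]
  push_cast
  ring

theorem cd_ne (hδ : 0 < δ) : ((D.c0 * δ : ℝ) : ℂ) ≠ 0 := by
  have := mul_pos D.hc0 hδ
  exact_mod_cast this.ne'

include hδ h1 h4 in
theorem G00_psiP : Ring.inverse (D.A 0 0) psiP = ((D.c0 * δ : ℝ) : ℂ)⁻¹ • psiP := by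
  have h := D.A00_psiP δ h1 h4
  have h' : psiP = D.A 0 0 (((D.c0 * δ : ℝ) : ℂ)⁻¹ • psiP) := by
    rw [map_smul, h, smul_smul, inv_mul_cancel₀ (D.cd_ne δ hδ), one_smul]
  conv_lhs => rw [h', app_inv _ D.unit00]

include hδ h2 h3 in
theorem G00_psiM : Ring.inverse (D.A 0 0) psiM = ((D.c0 * δ : ℝ) : ℂ)⁻¹ • psiM := by
  have h := D.A00_psiM δ h2 h3
  have h' : psiM = D.A 0 0 (((D.c0 * δ : ℝ) : ℂ)⁻¹ • psiM) := by
    rw [map_smul, h, smul_smul, inv_mul_cancel₀ (D.cd_ne δ hδ), one_smul]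
  conv_lhs => rw [h', app_inv _ D.unit00]

include hδ h1 h3 in
theorem nuP_G00 (u : S) : nuP (Ring.inverse (D.A 0 0) u) = ((D.c0 * δ : ℝ) : ℂ)⁻¹ * nuP u := by
  have h := D.nuP_A00 δ h1 h3 (Ring.inverse (D.A 0 0) u)
  rw [inv_app _ D.unit00] at h
  rw [h, ← mul_assoc, inv_mul_cancel₀ (D.cd_ne δ hδ), one_mul]

include hδ h2 h4 in
theorem nuM_G00 (u : S) : nuM (Ring.inverse (D.A 0 0) u) = ((D.c0 * δ : ℝ) : ℂ)⁻¹ * nuM u := by
  have h := D.nuM_A00 δ h2 h4 (Ring.inverse (D.A 0 0) u)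
  rw [inv_app _ D.unit00] at h
  rw [h, ← mul_assoc, inv_mul_cancel₀ (D.cd_ne δ hδ), one_mul]

end

section
variable (K k0 c1 : ℝ) (hA : ∀ c k : ℂ, 0 ≤ k.im → ‖k‖ ≤ k0 → ‖c‖ < c1 →
      IsUnit (D.A c k) ∧ ‖Ring.inverse (D.A c k)‖ ≤ K)

include hA in
theorem inv_rot (α : ℝ) (c k : ℂ) (hk : 0 ≤ k.im) (hk0 : ‖k‖ ≤ k0) (hc : ‖c‖ < c1) (u : S) :
    Rot α (Ring.inverse (D.A c k) u) =
      Ring.inverse (D.A (Complex.exp (2 * (Complex.I * α)) * c) k) (Rot α u) := by
  have hc' : ‖Complex.exp (2 * (Complex.I * α)) * c‖ < c1 := by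
    have e : (2 : ℂ) * (Complex.I * α) = Complex.I * ((2 * α : ℝ) : ℂ) := by push_cast; ring
    rw [e, norm_exp_c]; exact hc
  exact inv_comm _ _ _ (hA c k hk hk0 hc).1 (hA _ k hk hk0 hc').1 (fun u => D.Rot_A α c k hk u) u

include hA in
theorem diff_inv_c (k : ℂ) (hk : 0 ≤ k.im) (hk0 : ‖k‖ ≤ k0) (c : ℂ) (hc : ‖c‖ < c1) :
    DifferentiableAt ℂ (fun c => Ring.inverse (D.A c k)) c :=
  inv_diff _ _ (D.A_diff_c k hk c) (hA c k hk hk0 hc).1

theorem exp_two (θ : ℝ) : Complex.exp (2 * (Complex.I * ((θ / 2 : ℝ) : ℂ))) =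
    Complex.exp (Complex.I * θ) := by
  congr 1; push_cast; ring

include hA in
/-- `nuP (G psiP)` does not depend on `c` -/
theorem PP_const (c k : ℂ) (hk : 0 ≤ k.im) (hk0 : ‖k‖ ≤ k0) (hc : ‖c‖ < c1) :
    nuP (Ring.inverse (D.A c k) psiP) = nuP (Ring.inverse (D.A 0 k) psiP) := by
  refine rot_const (fun c => nuP (Ring.inverse (D.A c k) psiP)) c1 ?_ ?_ c (by simpa using hc)
  · intro c hc
    have hc' : ‖c‖ < c1 := by simpa using hc
    apply DifferentiableAt.differentiableWithinAt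
    have h := D.diff_inv_c K k0 c1 hA k hk hk0 c hc'
    exact nuP.differentiableAt.comp c (h.clm_apply (differentiableAt_const psiP))
  · intro θ c hc
    have hc' : ‖c‖ < c1 := by simpa using hc
    have h := D.inv_rot K k0 c1 hA (θ / 2) c k hk hk0 hc' psiP
    rw [exp_two, Rot_psiP, map_smul] at h
    have h2 := congrArg nuP h
    rw [nuP_Rot, map_smul, smul_eq_mul] at h2
    exact (mul_left_cancel₀ (Complex.exp_ne_zero _) h2).symm

include hA in
theorem MM_const (c k : ℂ) (hk : 0 ≤ k.im) (hk0 : ‖k‖ ≤ k0) (hc : ‖c‖ < c1) :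
    nuM (Ring.inverse (D.A c k) psiM) = nuM (Ring.inverse (D.A 0 k) psiM) := by
  refine rot_const (fun c => nuM (Ring.inverse (D.A c k) psiM)) c1 ?_ ?_ c (by simpa using hc)
  · intro c hc
    have hc' : ‖c‖ < c1 := by simpa using hc
    apply DifferentiableAt.differentiableWithinAt
    have h := D.diff_inv_c K k0 c1 hA k hk hk0 c hc'
    exact nuM.differentiableAt.comp c (h.clm_apply (differentiableAt_const psiM))
  · intro θ c hc
    have hc' : ‖c‖ < c1 := by simpa using hc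
    have h := D.inv_rot K k0 c1 hA (θ / 2) c k hk hk0 hc' psiM
    rw [exp_two, Rot_psiM, map_smul] at h
    have h2 := congrArg nuM h
    rw [nuM_Rot, map_smul, smul_eq_mul] at h2
    exact (mul_left_cancel₀ (Complex.exp_ne_zero _) h2).symm

include hA in
/-- `nuM (G psiP) = 0` -/
theorem MP_zero (c k : ℂ) (hk : 0 ≤ k.im) (hk0 : ‖k‖ ≤ k0) (hc : ‖c‖ < c1) (hc0 : c ≠ 0) :
    nuM (Ring.inverse (D.A c k) psiP) = 0 := by
  have key : (fun c => c * nuM (Ring.inverse (D.A c k) psiP)) c =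
      (fun c => c * nuM (Ring.inverse (D.A c k) psiP)) 0 := by
    refine rot_const (fun c => c * nuM (Ring.inverse (D.A c k) psiP)) c1 ?_ ?_ c
      (by simpa using hc)
    · intro c hc
      have hc' : ‖c‖ < c1 := by simpa using hc
      apply DifferentiableAt.differentiableWithinAt
      have h := D.diff_inv_c K k0 c1 hA k hk hk0 c hc'
      exact differentiableAt_id.mul
        (nuM.differentiableAt.comp c (h.clm_apply (differentiableAt_const psiP)))
    · intro θ c hc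
      have hc' : ‖c‖ < c1 := by simpa using hc
      have h := D.inv_rot K k0 c1 hA (θ / 2) c k hk hk0 hc' psiP
      rw [exp_two, Rot_psiP, map_smul] at h
      have h2 := congrArg nuM h
      rw [nuM_Rot, map_smul, smul_eq_mul] at h2
      have e : Complex.exp (Complex.I * θ) = Complex.exp (Complex.I * ((θ / 2 : ℝ) : ℂ)) *
          Complex.exp (Complex.I * ((θ / 2 : ℝ) : ℂ)) := by
        rw [← Complex.exp_add]; congr 1; push_cast; ring
      have e2 : Complex.exp (Complex.I * ((θ / 2 : ℝ) : ℂ)) *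
          Complex.exp (-(Complex.I * ((θ / 2 : ℝ) : ℂ))) = 1 := by
        rw [← Complex.exp_add]; simp
      show Complex.exp (Complex.I * θ) * c *
            nuM (Ring.inverse (D.A (Complex.exp (Complex.I * θ) * c) k) psiP) =
            c * nuM (Ring.inverse (D.A c k) psiP)
      generalize hX : nuM (Ring.inverse (D.A (Complex.exp (Complex.I * θ) * c) k) psiP) = X
        at h2 ⊢
      generalize hE : Complex.exp (Complex.I * ((θ / 2 : ℝ) : ℂ)) = E at h2 e e2
      generalize hE' : Complex.exp (-(Complex.I * ((θ / 2 : ℝ) : ℂ))) = E' at h2 e2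
      rw [e]
      linear_combination (-(E * c)) * h2 + c * nuM (Ring.inverse (D.A c k) psiP) * e2
  simp only [zero_mul] at key
  exact (mul_eq_zero.1 key).resolve_left hc0

include hA in
/-- the first order term in the outer potential does not depend on `c` -/
theorem Y_const (c k : ℂ) (hk : 0 ≤ k.im) (hk0 : ‖k‖ ≤ k0) (hc : ‖c‖ < c1)
    (W : E3 → ℂ) (hW : Pot W)
    (hrot : ∀ (α : ℝ) x, W (rot α x) = Complex.exp (- (2 * (Complex.I * α))) * W x) :
    nuM (Ring.inverse (D.A c k) (T k W (Ring.inverse (D.A c k) psiP))) =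
      nuM (Ring.inverse (D.A 0 k) (T k W (Ring.inverse (D.A 0 k) psiP))) := by
  refine rot_const (fun c => nuM (Ring.inverse (D.A c k)
    (T k W (Ring.inverse (D.A c k) psiP)))) c1 ?_ ?_ c (by simpa using hc)
  · intro c hc
    have hc' : ‖c‖ < c1 := by simpa using hc
    apply DifferentiableAt.differentiableWithinAt
    have h := D.diff_inv_c K k0 c1 hA k hk hk0 c hc'
    have h2 := (T k W).differentiableAt.comp c (h.clm_apply (differentiableAt_const psiP))
    exact nuM.differentiableAt.comp c (h.clm_apply h2)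
  · intro θ c hc
    have hc' : ‖c‖ < c1 := by simpa using hc
    have h := D.inv_rot K k0 c1 hA (θ / 2) c k hk hk0 hc' psiP
    rw [exp_two, Rot_psiP, map_smul] at h
    have hT := Rot_T (θ / 2) k hk W hW (Ring.inverse (D.A c k) psiP)
    have e0 : (fun x => W (rot (θ / 2) x)) =
        fun x => Complex.exp (- (2 * (Complex.I * ((θ / 2 : ℝ) : ℂ)))) * W x := by
      funext x; exact hrot _ x
    rw [e0, T_smul k hk _ W hW, h] at hT
    have h' := D.inv_rot K k0 c1 hA (θ / 2) c k hk hk0 hc' (T k W (Ring.inverse (D.A c k) psiP))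
    rw [exp_two, hT] at h'
    have h2 := congrArg nuM h'
    rw [nuM_Rot, ContinuousLinearMap.smul_apply, map_smul, map_smul, map_smul, map_smul, map_smul,
      smul_eq_mul, smul_eq_mul] at h2
    have e2 : Complex.exp (Complex.I * ((θ / 2 : ℝ) : ℂ)) *
        Complex.exp (-(2 * (Complex.I * ((θ / 2 : ℝ) : ℂ)))) =
          Complex.exp (-(Complex.I * ((θ / 2 : ℝ) : ℂ))) := by
      rw [← Complex.exp_add]; congr 1; ring
    have h3 : Complex.exp (-(Complex.I * ((θ / 2 : ℝ) : ℂ))) *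
        nuM (Ring.inverse (D.A c k) (T k W (Ring.inverse (D.A c k) psiP))) =
        Complex.exp (-(Complex.I * ((θ / 2 : ℝ) : ℂ))) *
        nuM (Ring.inverse (D.A (Complex.exp (Complex.I * θ) * c) k)
          (T k W (Ring.inverse (D.A (Complex.exp (Complex.I * θ) * c) k) psiP))) := by
      rw [h2, ← e2]; ring
    exact (mul_left_cancel₀ (Complex.exp_ne_zero _) h3).symm

end

end Dat

end Pool.Agent.Helper16.CE
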