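import Mathlib

set_option autoImplicit false

namespace Pool.Agent.Helper16.CE
open MeasureTheory
open scoped ENNReal

/-- three dimensional Euclidean space -/
abbrev E3 : Type := EuclideanSpace ℝ (Fin 3)

/-- reflection of the `j`-th coordinate -/
noncomputable def rf (j : Fin 3) : E3 ≃ₗᵢ[ℝ] E3 :=
  LinearIsometryEquiv.piLpCongrRight 2
    (fun i => if i = j then LinearIsometryEquiv.neg ℝ else LinearIsometryEquiv.refl ℝ ℝ)

theorem rf_apply (j : Fin 3) (x : E3) (i : Fin 3) :
    rf j x i = if i = j then - x i else x i := by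
  unfold rf
  by_cases h : i = j <;> simp [h]

/-- `(x₀ + i x₁)` -/
noncomputable def zp (x : E3) : ℂ := (x 0 : ℂ) + Complex.I * (x 1 : ℂ)
/-- `(x₀ - i x₁)` -/
noncomputable def zm (x : E3) : ℂ := (x 0 : ℂ) - Complex.I * (x 1 : ℂ)

/-- rotation by `α` in the plane of the coordinates `0, 1`, as a function -/
noncomputable def rotFun (α : ℝ) (x : E3) : E3 :=
  !₂[Real.cos α * x 0 - Real.sin α * x 1, Real.sin α * x 0 + Real.cos α * x 1, x 2]

theorem rotFun_zero' (α : ℝ) (x : E3) : rotFun α x 0 = Real.cos α * x 0 - Real.sin α * x 1 := rfl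
theorem rotFun_one' (α : ℝ) (x : E3) : rotFun α x 1 = Real.sin α * x 0 + Real.cos α * x 1 := rfl
theorem rotFun_two' (α : ℝ) (x : E3) : rotFun α x 2 = x 2 := rfl

/-- rotation by `α` in the plane of the coordinates `0, 1` -/
noncomputable def rot (α : ℝ) : E3 ≃ₗᵢ[ℝ] E3 where
  toFun := rotFun α
  invFun := rotFun (-α)
  map_add' x y := by
    ext i; fin_cases i
    · show rotFun α (x + y) 0 = rotFun α x 0 + rotFun α y 0
      simp only [rotFun_zero', PiLp.add_apply]; ring
    · show rotFun α (x + y) 1 = rotFun α x 1 + rotFun α y 1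
      simp only [rotFun_one', PiLp.add_apply]; ring
    · show rotFun α (x + y) 2 = rotFun α x 2 + rotFun α y 2
      simp only [rotFun_two', PiLp.add_apply]
  map_smul' c x := by
    ext i; fin_cases i
    · show rotFun α (c • x) 0 = c * rotFun α x 0
      simp only [rotFun_zero', PiLp.smul_apply, smul_eq_mul]; ring
    · show rotFun α (c • x) 1 = c * rotFun α x 1
      simp only [rotFun_one', PiLp.smul_apply, smul_eq_mul]; ring
    · show rotFun α (c • x) 2 = c * rotFun α x 2
      simp only [rotFun_two', PiLp.smul_apply, smul_eq_mul]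
  left_inv x := by
    have hcs := Real.sin_sq_add_cos_sq α
    ext i; fin_cases i
    · show rotFun (-α) (rotFun α x) 0 = x 0
      simp only [rotFun_zero', rotFun_one', Real.cos_neg, Real.sin_neg]
      linear_combination (x 0) * hcs
    · show rotFun (-α) (rotFun α x) 1 = x 1
      simp only [rotFun_zero', rotFun_one', Real.cos_neg, Real.sin_neg]
      linear_combination (x 1) * hcs
    · rfl
  right_inv x := by
    have hcs := Real.sin_sq_add_cos_sq α
    ext i; fin_cases i
    · show rotFun α (rotFun (-α) x) 0 = x 0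
      simp only [rotFun_zero', rotFun_one', Real.cos_neg, Real.sin_neg]
      linear_combination (x 0) * hcs
    · show rotFun α (rotFun (-α) x) 1 = x 1
      simp only [rotFun_zero', rotFun_one', Real.cos_neg, Real.sin_neg]
      linear_combination (x 1) * hcs
    · rfl
  norm_map' x := by
    have hcs := Real.sin_sq_add_cos_sq α
    show ‖rotFun α x‖ = ‖x‖
    rw [EuclideanSpace.norm_eq, EuclideanSpace.norm_eq]
    congr 1
    simp only [Fin.sum_univ_three, Real.norm_eq_abs, sq_abs, rotFun_zero', rotFun_one', rotFun_two']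
    linear_combination (x 0 ^ 2 + x 1 ^ 2) * hcs

theorem rot_apply (α : ℝ) (x : E3) : rot α x = rotFun α x := rfl

/-- the radial Green function `e^{ikr}/(4πr)` (value `0` at `r = 0`) -/
noncomputable def gk (k : ℂ) (r : ℝ) : ℂ :=
  Complex.exp (Complex.I * k * r) / (4 * Real.pi * r : ℝ)

/-- the class of functions: measurable, odd, even in the last coordinate -/
structure Cls (u : E3 → ℂ) : Prop where
  meas : Measurable u
  neg : ∀ x, u (-x) = - u x
  refl : ∀ x, u (rf 2 x) = u x

/-- the Banach space of bounded functions of the class -/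
noncomputable def S : Submodule ℂ (lp (fun _ : E3 => ℂ) ∞) where
  carrier := {u | Cls (u : E3 → ℂ)}
  add_mem' := by
    intro a b ha hb
    refine ⟨?_, ?_, ?_⟩
    · rw [lp.coeFn_add]
      exact ha.meas.add hb.meas
    · intro x
      simp only [lp.coeFn_add, Pi.add_apply, ha.neg, hb.neg]; ring
    · intro x
      simp only [lp.coeFn_add, Pi.add_apply, ha.refl, hb.refl]
  zero_mem' := by
    refine ⟨?_, ?_, ?_⟩
    · simp only [lp.coeFn_zero]; exact measurable_const
    · intro x; simp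
    · intro x; simp
  smul_mem' := by
    intro c a ha
    refine ⟨?_, ?_, ?_⟩
    · have := ha.meas.const_smul c
      simpa using this
    · intro x
      simp only [lp.coeFn_smul, Pi.smul_apply, ha.neg]; simp
    · intro x
      simp only [lp.coeFn_smul, Pi.smul_apply, ha.refl]

/-- the value of `u ∈ S` at a point -/
noncomputable def ev (u : S) (x : E3) : ℂ := ((u : lp (fun _ : E3 => ℂ) ∞) : E3 → ℂ) x

/-- admissible potentials -/
structure Pot (V : E3 → ℂ) : Prop where
  meas : Measurable V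
  bdd : ∃ C : ℝ, ∀ x, ‖V x‖ ≤ C
  int : Integrable V volume
  neg : ∀ x, V (-x) = V x
  refl : ∀ x, V (rf 2 x) = V x

open Classical in
/-- the operator `u ↦ G_k (V u)`; its existence is part `T` -/
noncomputable def T (k : ℂ) (V : E3 → ℂ) : S →L[ℂ] S :=
  if h : ∃ L : S →L[ℂ] S, ∀ (u : S) (x : E3),
    ev (L u) x = ∫ y, gk k ‖x - y‖ * (V y * ev u y) then h.choose else 0

open Classical in
/-- the functional `u ↦ ∫_{|y|<1} y_j u(y) dy` -/
noncomputable def mom (j : Fin 3) : S →L[ℂ] ℂ :=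
  if h : ∃ L : S →L[ℂ] ℂ, ∀ u : S,
    L u = ∫ y in Metric.ball (0 : E3) 1, (y j : ℂ) * ev u y then h.choose else 0

open Classical in
/-- the Newtonian potential of `y_j 1_{|y|<1}` -/
noncomputable def psi (j : Fin 3) : S :=
  if h : ∃ u : S, ∀ x : E3,
    ev u x = ∫ y in Metric.ball (0 : E3) 1, gk 0 ‖x - y‖ * (y j : ℂ) then h.choose else 0

open Classical in
/-- composition with the rotation by `α` -/
noncomputable def Rot (α : ℝ) : S →L[ℂ] S :=
  if h : ∃ L : S →L[ℂ] S, ∀ (u : S) (x : E3), ev (L u) x = ev u (rot α x) then h.choose else 0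

/-- `u ↦ ψ₀ ∫ y₀ u + ψ₁ ∫ y₁ u` -/
noncomputable def P : S →L[ℂ] S :=
  (mom 0).smulRight (psi 0) + (mom 1).smulRight (psi 1)

/-- the raising potential of the inner region -/
noncomputable def Q (x : E3) : ℂ := if ‖x‖ < 1 then zp x ^ 2 else 0

/-- minus the derivative of `gk k` : `(1/r² - i k / r) e^{ikr} / (4π)` -/
noncomputable def Dk (k : ℂ) (r : ℝ) : ℂ :=
  (1 / (r : ℂ) ^ 2 - Complex.I * k / r) * Complex.exp (Complex.I * k * r) / (4 * Real.pi : ℝ)

/-- the inner radial potential `- 1/f` on the unit ball -/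
noncomputable def vv (f : E3 → ℝ) (x : E3) : ℂ := if ‖x‖ < 1 then ((- 1 / f x : ℝ) : ℂ) else 0

section hamiltonian
open FourierTransform

/-- `L²(ℝ³; ℂ)` -/
abbrev L2 : Type := Lp ℂ 2 (volume : Measure E3)

/-- the function `û`, `û(ξ) = ∫ e^{-2πi x·ξ} u(x) dx` (unitary Fourier transform on `L²`) -/
noncomputable def hat (u : L2) : E3 → ℂ := ((𝓕 u : L2) : E3 → ℂ)

/-- `u ∈ H¹(ℝ³)`: `|ξ| û ∈ L²` -/
def InH1 (u : L2) : Prop := MemLp (fun ξ : E3 => (‖ξ‖ : ℂ) * hat u ξ) 2 volume

/-- `∫ ∇u · conj ∇φ = ∫ (2π|ξ|)² û conj φ̂` -/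
noncomputable def dirichlet (u φ : L2) : ℂ :=
  ∫ ξ : E3, (((2 * Real.pi * ‖ξ‖) ^ 2 : ℝ) : ℂ) * hat u ξ * (starRingEnd ℂ) (hat φ ξ)

/-- `V u conj φ` -/
noncomputable def potential (V : E3 → ℂ) (u φ : L2) (x : E3) : ℂ :=
  V x * u x * (starRingEnd ℂ) (φ x)

/-- the inner product `∫ f conj φ` -/
noncomputable def pairing (f φ : L2) : ℂ := ∫ x, f x * (starRingEnd ℂ) (φ x)

/-- `u ∈ D(H)` and `H u = f`, where `H = -Δ + V` is the operator of the form
`∫ ∇u · conj ∇φ + ∫ V u conj φ` on `H¹(ℝ³)` -/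
def IsHu (V : E3 → ℂ) (u f : L2) : Prop :=
  InH1 u ∧ ∀ φ : L2, InH1 φ → Integrable (potential V u φ) volume ∧
    dirichlet u φ + ∫ x, potential V u φ x = pairing f φ

end hamiltonian

/-- `ψ₊ = ψ₀ + i ψ₁` -/
noncomputable def psiP : S := psi 0 + Complex.I • psi 1
/-- `ψ₋ = ψ₀ - i ψ₁` -/
noncomputable def psiM : S := psi 0 - Complex.I • psi 1
/-- the coefficient functional of `ψ₊` in `P` -/
noncomputable def nuP : S →L[ℂ] ℂ := (1 / 2 : ℂ) • (mom 0 - Complex.I • mom 1)
/-- the coefficient functional of `ψ₋` in `P` -/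
noncomputable def nuM : S →L[ℂ] ℂ := (1 / 2 : ℂ) • (mom 0 + Complex.I • mom 1)

end Pool.Agent.Helper16.CE
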