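import Pool.Agent.Helper16.CE.P2
import Pool.Agent.Helper96.CE.Y

set_option autoImplicit false

namespace Pool.Agent.Helper16.CE
open MeasureTheory
open Pool.Agent.Helper96.CE (T_norm T_add nu_Q_ne lead)
open Pool.Agent.Helper78.CE (pot_Q)
open scoped ENNReal

theorem alg_est (a d p m a' d' p' m' Y y0 φ : ℂ) (Δ kk τ t η x1 x2 x3 x4 x5 x6 x7 : ℝ)
    (hΔ : 0 ≤ Δ) (hkk : 0 ≤ kk) (hτ : 0 ≤ τ) (ht : 0 ≤ t) (hη : kk ≤ η)
    (hx1 : 0 ≤ x1) (hx2 : 0 ≤ x2) (hx3 : 0 ≤ x3) (hx4 : 0 ≤ x4) (hx5 : 0 ≤ x5) (hx6 : 0 ≤ x6)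
    (hx7 : 0 ≤ x7)
    (h1 : ‖a - a'‖ ≤ x1 * Δ) (h2 : ‖d - d'‖ ≤ x1 * Δ) (h3 : ‖p - p'‖ ≤ x1 * Δ)
    (h4 : ‖1 - d‖ ≤ x2 * (kk + τ)) (h5 : ‖1 - a'‖ ≤ x2 * (kk + τ)) (h6 : ‖m‖ ≤ x2 * (kk + τ))
    (h7 : ‖p' - φ‖ ≤ x2 * (kk + τ)) (h8 : ‖p'‖ ≤ x3) (h9 : ‖m - m' + Y‖ ≤ x4 * Δ * t)
    (h10 : ‖Y‖ ≤ x5 * Δ) (h11 : ‖φ‖ ≤ x6) (h12 : ‖Y - y0‖ ≤ x7 * Δ * η) :
    ‖((1 - a) * (1 - d) - p * m) - ((1 - a') * (1 - d') - p' * m') - φ * y0‖ ≤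
      (3 * x1 * x2 + x2 * x5 + x3 * x4 + x6 * x7) * Δ * (η + t + τ) := by
  have e : ((1 - a) * (1 - d) - p * m) - ((1 - a') * (1 - d') - p' * m') - φ * y0 =
      -((a - a') * (1 - d)) + (-((1 - a') * (d - d'))) + (-((p - p') * m)) +
      (-(p' * (m - m' + Y))) + (p' - φ) * Y + φ * (Y - y0) := by ring
  have hη0 : 0 ≤ η := hkk.trans hη
  rw [e]
  have b1 : ‖-((a - a') * (1 - d))‖ ≤ (x1 * Δ) * (x2 * (kk + τ)) := by
    rw [norm_neg, norm_mul]; gcongr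
  have b2 : ‖-((1 - a') * (d - d'))‖ ≤ (x2 * (kk + τ)) * (x1 * Δ) := by
    rw [norm_neg, norm_mul]; gcongr
  have b3 : ‖-((p - p') * m)‖ ≤ (x1 * Δ) * (x2 * (kk + τ)) := by
    rw [norm_neg, norm_mul]; gcongr
  have b4 : ‖-(p' * (m - m' + Y))‖ ≤ x3 * (x4 * Δ * t) := by
    rw [norm_neg, norm_mul]; gcongr
  have b5 : ‖(p' - φ) * Y‖ ≤ (x2 * (kk + τ)) * (x5 * Δ) := by
    rw [norm_mul]; gcongr
  have b6 : ‖φ * (Y - y0)‖ ≤ x6 * (x7 * Δ * η) := by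
    rw [norm_mul]; gcongr
  have hk' : kk + τ ≤ η + t + τ := by linarith
  calc _ ≤ (x1 * Δ) * (x2 * (kk + τ)) + (x2 * (kk + τ)) * (x1 * Δ) +
        (x1 * Δ) * (x2 * (kk + τ)) + x3 * (x4 * Δ * t) + (x2 * (kk + τ)) * (x5 * Δ) +
        x6 * (x7 * Δ * η) := by
        refine (norm_add_le _ _).trans (add_le_add ?_ b6)
        refine (norm_add_le _ _).trans (add_le_add ?_ b5)
        refine (norm_add_le _ _).trans (add_le_add ?_ b4)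
        refine (norm_add_le _ _).trans (add_le_add ?_ b3)
        exact (norm_add_le _ _).trans (add_le_add b1 b2)
    _ ≤ (x1 * Δ) * (x2 * (η + t + τ)) + (x2 * (η + t + τ)) * (x1 * Δ) +
        (x1 * Δ) * (x2 * (η + t + τ)) + x3 * (x4 * Δ * (η + t + τ)) +
        (x2 * (η + t + τ)) * (x5 * Δ) + x6 * (x7 * Δ * (η + t + τ)) := by
        gcongr <;> linarith
    _ = _ := by ring

/-- the constant of `Main1` -/
noncomputable def cX (q Cp C2 Cl nφ : ℝ) : ℝ :=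
  3 * (q * (2 * Cp)) * (q * C2 + q * (2 * Cp)) + (q * C2 + q * (2 * Cp)) * (q * Cp) +
    (q * nφ + (q * C2 + q * (2 * Cp)) * 2) * (q * Cp) + (q * nφ) * (q * Cl)

theorem scal (q Cp C2 Cl k2 η t τ Δ : ℝ) (κ1 PW MW pW mW PW' MW' pW' mW' PA MA pA φ Y0 J : ℂ)
    (hq : 0 ≤ q) (hCp : 0 ≤ Cp) (hC2 : 0 ≤ C2) (hCl : 0 ≤ Cl) (hk2 : 0 ≤ k2) (hk21 : k2 ≤ 1)
    (hη : k2 ≤ η) (ht : 0 ≤ t) (hτ : 0 ≤ τ) (hτ1 : τ ≤ 1) (hΔ : 0 ≤ Δ)
    (h1 : ‖1 - q * PA‖ ≤ q * C2 * k2) (h2 : ‖1 - q * MA‖ ≤ q * C2 * k2)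
    (h3 : ‖pA - φ‖ ≤ C2 * k2) (h4 : ‖PW - PW'‖ ≤ 2 * Cp * Δ) (h5 : ‖MW - MW'‖ ≤ 2 * Cp * Δ)
    (h6 : ‖pW - pW'‖ ≤ 2 * Cp * Δ) (h7 : ‖MW - MA‖ ≤ 2 * Cp * τ) (h8 : ‖mW‖ ≤ 2 * Cp * τ)
    (h9 : ‖PW' - PA‖ ≤ 2 * Cp * τ) (h10 : ‖pW' - pA‖ ≤ 2 * Cp * τ)
    (h11 : ‖mW - mW' + Y0‖ ≤ Cp * Δ * t) (h12 : ‖Y0‖ ≤ Cp * Δ)
    (h13 : ‖Y0 - κ1 * J‖ ≤ Cl * Δ * η) :
    ‖((1 - q * PW) * (1 - q * MW) - (q * pW) * (q * mW)) -
      ((1 - q * PW') * (1 - q * MW') - (q * pW') * (q * mW')) - (q * φ) * (q * κ1) * J‖ ≤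
      cX q Cp C2 Cl ‖φ‖ * Δ * (η + t + τ) := by
  have nq : ‖((q : ℝ) : ℂ)‖ = q := by rw [Complex.norm_real, Real.norm_of_nonneg hq]
  have a1 : 0 ≤ q * C2 * τ := by positivity
  have a2 : 0 ≤ q * (2 * Cp) * k2 := by positivity
  have a3 : 0 ≤ q * C2 * k2 := by positivity
  have g1 : ‖1 - q * MW‖ ≤ (q * C2 + q * (2 * Cp)) * (k2 + τ) := by
    have e : 1 - q * MW = (1 - q * MA) - q * (MW - MA) := by ring
    rw [e]
    refine (norm_sub_le _ _).trans ?_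
    rw [norm_mul, nq]
    calc _ ≤ q * C2 * k2 + q * (2 * Cp * τ) := by gcongr
      _ ≤ _ := by nlinarith
  have g2 : ‖1 - q * PW'‖ ≤ (q * C2 + q * (2 * Cp)) * (k2 + τ) := by
    have e : 1 - q * PW' = (1 - q * PA) - q * (PW' - PA) := by ring
    rw [e]
    refine (norm_sub_le _ _).trans ?_
    rw [norm_mul, nq]
    calc _ ≤ q * C2 * k2 + q * (2 * Cp * τ) := by gcongr
      _ ≤ _ := by nlinarith
  have g3 : ‖(q : ℂ) * mW‖ ≤ (q * C2 + q * (2 * Cp)) * (k2 + τ) := by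
    rw [norm_mul, nq]
    calc _ ≤ q * (2 * Cp * τ) := by gcongr
      _ ≤ _ := by nlinarith
  have g4 : ‖q * pW' - q * φ‖ ≤ (q * C2 + q * (2 * Cp)) * (k2 + τ) := by
    have e : q * pW' - q * φ = q * (pW' - pA) + q * (pA - φ) := by ring
    rw [e]
    refine (norm_add_le _ _).trans ?_
    rw [norm_mul, norm_mul, nq]
    calc _ ≤ q * (2 * Cp * τ) + q * (C2 * k2) := by gcongr
      _ ≤ _ := by nlinarith
  have g5 : ‖(q : ℂ) * pW'‖ ≤ q * ‖φ‖ + (q * C2 + q * (2 * Cp)) * 2 := by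
    have e : q * pW' = q * φ + (q * pW' - q * φ) := by ring
    rw [e]
    refine (norm_add_le _ _).trans ?_
    refine add_le_add (by rw [norm_mul, nq]) (g4.trans ?_)
    gcongr
    linarith
  have key := alg_est (q * PW) (q * MW) (q * pW) (q * mW) (q * PW') (q * MW') (q * pW') (q * mW')
    (q * Y0) (q * (κ1 * J)) (q * φ) Δ k2 τ t η (q * (2 * Cp)) (q * C2 + q * (2 * Cp))
    (q * ‖φ‖ + (q * C2 + q * (2 * Cp)) * 2) (q * Cp) (q * Cp) (q * ‖φ‖) (q * Cl)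
    hΔ hk2 hτ ht hη (by positivity) (by positivity) (by positivity) (by positivity)
    (by positivity) (by positivity) (by positivity)
    (by rw [← mul_sub, norm_mul, nq, mul_assoc]; gcongr)
    (by rw [← mul_sub, norm_mul, nq, mul_assoc]; gcongr)
    (by rw [← mul_sub, norm_mul, nq, mul_assoc]; gcongr)
    g1 g2 g3 g4 g5
    (by
      have e : q * mW - q * mW' + q * Y0 = q * (mW - mW' + Y0) := by ring
      rw [e, norm_mul, nq]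
      calc _ ≤ q * (Cp * Δ * t) := by gcongr
        _ = _ := by ring)
    (by
      rw [norm_mul, nq, mul_assoc]; gcongr)
    (by rw [norm_mul, nq])
    (by
      rw [← mul_sub, norm_mul, nq]
      calc _ ≤ q * (Cl * Δ * η) := by gcongr
        _ = _ := by ring)
  have e1 : (q : ℂ) * φ * (q * κ1) * J = (q * φ) * (q * (κ1 * J)) := by ring
  rw [e1]
  exact key

namespace Dat
variable (D : Dat)

theorem B_zero (c k : ℂ) : D.B c k (fun _ => 0) = D.A c k := by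
  unfold B A
  simp only [add_zero]

/-- choice of the coupling constant -/
theorem exists_c (K k0 c1 : ℝ) (hk0 : 0 < k0) (hc1 : 0 < c1)
    (hA : ∀ c k : ℂ, 0 ≤ k.im → ‖k‖ ≤ k0 → ‖c‖ < c1 →
      IsUnit (D.A c k) ∧ ‖Ring.inverse (D.A c k)‖ ≤ K) :
    ∃ c : ℂ, c ≠ 0 ∧ ‖c‖ < c1 ∧ nuP (Ring.inverse (D.A c 0) psiM) ≠ 0 := by
  obtain ⟨δ, hδ, h1, h2, h3, h4⟩ := D.exists_delta
  have hz : (0 : ℝ) ≤ (0 : ℂ).im := by simp
  have hz0 : ‖(0 : ℂ)‖ ≤ k0 := by simpa using hk0.le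
  have hA0 := fun c hc => hA c 0 hz hz0 hc
  set g : ℂ → ℂ := fun c => nuP (Ring.inverse (D.A c 0) (T 0 Q (Ring.inverse (D.A 0 0) psiM)))
    with hg
  have hgc : ContinuousAt g 0 := by
    have h := D.diff_inv_c K k0 c1 hA 0 hz hz0 0 (by simpa using hc1)
    exact (nuP.differentiableAt.comp 0 (h.clm_apply (differentiableAt_const _))).continuousAt
  have hg0 : g 0 ≠ 0 := by
    rw [hg]
    simp only
    rw [D.nuP_G00 δ hδ h1 h3, D.G00_psiM δ hδ h2 h3, map_smul, map_smul, smul_eq_mul]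
    have := nu_Q_ne D.f D.f1 D.f2 D.hf D.hf1 D.hf12 D.hfi D.hpsi
    have hc := D.cd_ne δ hδ
    positivity
  have hev : ∀ᶠ c in nhds (0 : ℂ), g c ≠ 0 ∧ ‖c‖ < c1 := by
    refine (hgc.eventually_ne hg0).and ?_
    have : Metric.ball (0 : ℂ) c1 ∈ nhds (0 : ℂ) := Metric.ball_mem_nhds _ hc1
    filter_upwards [this] with c hc
    simpa using hc
  have hev2 : ∀ᶠ c in nhdsWithin (0 : ℂ) {0}ᶜ, (g c ≠ 0 ∧ ‖c‖ < c1) ∧ c ≠ 0 :=
    (hev.filter_mono nhdsWithin_le_nhds).and (eventually_mem_nhdsWithin)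
  obtain ⟨c, ⟨hgc', hcc⟩, hc0⟩ := hev2.exists
  refine ⟨c, hc0, hcc, ?_⟩
  have hs := inv_sub (D.A c 0) (D.A 0 0) (hA0 c hcc).1 D.unit00
  have hdiff : D.A 0 0 - D.A c 0 = - (c • T 0 Q) := by
    rw [D.A_eq c 0 hz, D.A_eq 0 0 hz, op_zero_smul]; abel
  rw [hdiff] at hs
  have h5 : nuP ((Ring.inverse (D.A c 0) - Ring.inverse (D.A 0 0)) psiM) =
      nuP ((Ring.inverse (D.A c 0) * -(c • T 0 Q) * Ring.inverse (D.A 0 0)) psiM) := by rw [hs]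
  have h6 : nuP ((Ring.inverse (D.A c 0) - Ring.inverse (D.A 0 0)) psiM) =
      nuP (Ring.inverse (D.A c 0) psiM) - nuP (Ring.inverse (D.A 0 0) psiM) := by
    rw [← map_sub]; rfl
  have h7 : nuP ((Ring.inverse (D.A c 0) * -(c • T 0 Q) * Ring.inverse (D.A 0 0)) psiM) =
      - (c * g c) := by
    have : (Ring.inverse (D.A c 0) * -(c • T 0 Q) * Ring.inverse (D.A 0 0)) psiM =
        Ring.inverse (D.A c 0) (-(c • T 0 Q (Ring.inverse (D.A 0 0) psiM))) := rfl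
    rw [this, map_neg, map_smul, map_neg, map_smul, smul_eq_mul]
  rw [h6, h7, D.nuP_G00 δ hδ h1 h3, h3, mul_zero, sub_zero] at h5
  rw [h5]
  exact neg_ne_zero.2 (mul_ne_zero hc0 hgc')

theorem out_zero (R0 M I : ℝ) (hM : 0 ≤ M) (hI : 0 ≤ I) : Out R0 M I (fun _ => 0) where
  pot := ⟨measurable_const, ⟨0, by simp⟩, integrable_zero _ _ _, by simp, by simp⟩
  out := by simp
  hrot := by simp
  bd := by simpa using hM
  int := by simpa using hI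

theorem main1 : Main1 D := by
  obtain ⟨K, k0, c1, Ca, hK, hk0, hk01, hc1, hCa, hA, hA2⟩ := D.A_bds
  obtain ⟨δ, hδ, h1, h2, h3, h4⟩ := D.exists_delta
  obtain ⟨c, hc0, hcc, hφ⟩ := D.exists_c K k0 c1 hk0 hc1 hA
  obtain ⟨s0, Cp, hs0, hs01, hCp, hpert⟩ := pert D K k0 c1 hK hk01 hA c hcc
  obtain ⟨κ1, Cl, hκ1, hCl, hlead⟩ := lead D K k0 c1 Ca hK hk01 hc1 hCa hA hA2
  have hz : (0 : ℝ) ≤ (0 : ℂ).im := by simp
  have hz0 : ‖(0 : ℂ)‖ ≤ k0 := by simpa using hk0.le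
  have hc00 : ‖(0 : ℂ)‖ < c1 := by simpa using hc1
  obtain ⟨φ, hφdef⟩ : ∃ φ : ℂ, φ = nuP (Ring.inverse (D.A c 0) psiM) := ⟨_, rfl⟩
  rw [← hφdef] at hφ
  -- norm bounds on the inner region
  obtain ⟨nn, hnn⟩ : ∃ nn : ℝ, nn = max ‖(nuP : S →L[ℂ] ℂ)‖ ‖(nuM : S →L[ℂ] ℂ)‖ := ⟨_, rfl⟩
  obtain ⟨pp, hpp⟩ : ∃ pp : ℝ, pp = max ‖(psiP : S)‖ ‖(psiM : S)‖ := ⟨_, rfl⟩
  have hnn0 : 0 ≤ nn := by
    rw [hnn]; exact le_max_of_le_left (ContinuousLinearMap.opNorm_nonneg _)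
  have hpp0 : 0 ≤ pp := by
    rw [hpp]; exact le_max_of_le_left (norm_nonneg _)
  obtain ⟨C2, hC2⟩ : ∃ C2 : ℝ, C2 = nn * (K * Ca * K) * pp := ⟨_, rfl⟩
  have hC20 : 0 ≤ C2 := by rw [hC2]; positivity
  have hdiff : ∀ k : ℂ, 0 ≤ k.im → ‖k‖ ≤ k0 → ∀ (ν : S →L[ℂ] ℂ) (ψ : S), ‖ν‖ ≤ nn → ‖ψ‖ ≤ pp →
      ‖ν (Ring.inverse (D.A c k) ψ) - ν (Ring.inverse (D.A c 0) ψ)‖ ≤ C2 * ‖k‖ ^ 2 := by
    intro k hk hkk ν ψ hν hψ
    have e : ν (Ring.inverse (D.A c k) ψ) - ν (Ring.inverse (D.A c 0) ψ) =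
        ν ((Ring.inverse (D.A c k) - Ring.inverse (D.A c 0)) ψ) := by
      rw [← map_sub]; rfl
    rw [e, inv_sub _ _ (hA c k hk hkk hcc).1 (hA c 0 hz hz0 hcc).1]
    have hX : ‖(Ring.inverse (D.A c k) * (D.A c 0 - D.A c k) * Ring.inverse (D.A c 0)) ψ‖ ≤
        K * (Ca * ‖k‖ ^ 2 * (K * ‖ψ‖)) := by
      have e2 : (Ring.inverse (D.A c k) * (D.A c 0 - D.A c k) * Ring.inverse (D.A c 0)) ψ =
          Ring.inverse (D.A c k) ((D.A c 0 - D.A c k) (Ring.inverse (D.A c 0) ψ)) := rfl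
      rw [e2]
      refine (ContinuousLinearMap.le_opNorm _ _).trans ?_
      refine mul_le_mul (hA c k hk hkk hcc).2 ?_ (norm_nonneg _) (by linarith)
      refine (ContinuousLinearMap.le_opNorm _ _).trans ?_
      refine mul_le_mul ?_ ?_ (norm_nonneg _) (by positivity)
      · have : ‖D.A c 0 - D.A c k‖ = ‖D.A c k - D.A c 0‖ := by
          rw [← ContinuousLinearMap.opNorm_neg]; congr 1; abel
        rw [this]; exact hA2 c k hk hcc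
      · refine (ContinuousLinearMap.le_opNorm _ _).trans ?_
        gcongr; exact (hA c 0 hz hz0 hcc).2
    calc ‖ν ((Ring.inverse (D.A c k) * (D.A c 0 - D.A c k) * Ring.inverse (D.A c 0)) ψ)‖
        ≤ ‖ν‖ * ‖(Ring.inverse (D.A c k) * (D.A c 0 - D.A c k) * Ring.inverse (D.A c 0)) ψ‖ :=
          ContinuousLinearMap.le_opNorm _ _
      _ ≤ nn * (K * (Ca * ‖k‖ ^ 2 * (K * pp))) := by
          refine mul_le_mul hν (hX.trans ?_) (norm_nonneg _) hnn0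
          gcongr
      _ = C2 * ‖k‖ ^ 2 := by rw [hC2]; ring
  have nP : ‖(nuP : S →L[ℂ] ℂ)‖ ≤ nn := by rw [hnn]; exact le_max_left _ _
  have nM : ‖(nuM : S →L[ℂ] ℂ)‖ ≤ nn := by rw [hnn]; exact le_max_right _ _
  have pP : ‖(psiP : S)‖ ≤ pp := by rw [hpp]; exact le_max_left _ _
  have pM : ‖(psiM : S)‖ ≤ pp := by rw [hpp]; exact le_max_right _ _
  have hc0' : ((D.c0 : ℝ) : ℂ) ≠ 0 := by exact_mod_cast D.hc0.ne'
  have hPP0 : D.c0 * nuP (Ring.inverse (D.A c 0) psiP) = 1 := by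
    rw [D.PP_const K k0 c1 hA c 0 hz hz0 hcc, D.nuP_G00 δ hδ h1 h3, h1]
    have hδ' : ((δ : ℝ) : ℂ) ≠ 0 := by exact_mod_cast hδ.ne'
    push_cast
    field_simp
  have hMM0 : D.c0 * nuM (Ring.inverse (D.A c 0) psiM) = 1 := by
    rw [D.MM_const K k0 c1 hA c 0 hz hz0 hcc, D.nuM_G00 δ hδ h2 h4, h2]
    have hδ' : ((δ : ℝ) : ℂ) ≠ 0 := by exact_mod_cast hδ.ne'
    push_cast
    field_simp
  have hMP0 : ∀ k : ℂ, 0 ≤ k.im → ‖k‖ ≤ k0 → nuM (Ring.inverse (D.A c k) psiP) = 0 :=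
    fun k hk hkk => D.MP_zero K k0 c1 hA c k hk hkk hcc hc0
  obtain ⟨q, hq⟩ : ∃ q : ℝ, q = D.c0 := ⟨_, rfl⟩
  have hq0 : 0 < q := by rw [hq]; exact D.hc0
  rw [← hq] at hPP0 hMM0 hc0'
  have nq : ‖((q : ℝ) : ℂ)‖ = q := by rw [Complex.norm_real, Real.norm_of_nonneg hq0.le]
  have h1PP : ∀ k : ℂ, 0 ≤ k.im → ‖k‖ ≤ k0 →
      ‖1 - q * nuP (Ring.inverse (D.A c k) psiP)‖ ≤ q * C2 * ‖k‖ ^ 2 := by
    intro k hk hkk
    have e : 1 - q * nuP (Ring.inverse (D.A c k) psiP) = - (q *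
        (nuP (Ring.inverse (D.A c k) psiP) - nuP (Ring.inverse (D.A c 0) psiP))) := by
      rw [mul_sub, hPP0]; ring
    rw [e, norm_neg, norm_mul, nq, mul_assoc]
    gcongr
    exact hdiff k hk hkk nuP psiP nP pP
  have h1MM : ∀ k : ℂ, 0 ≤ k.im → ‖k‖ ≤ k0 →
      ‖1 - q * nuM (Ring.inverse (D.A c k) psiM)‖ ≤ q * C2 * ‖k‖ ^ 2 := by
    intro k hk hkk
    have e : 1 - q * nuM (Ring.inverse (D.A c k) psiM) = - (q *
        (nuM (Ring.inverse (D.A c k) psiM) - nuM (Ring.inverse (D.A c 0) psiM))) := by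
      rw [mul_sub, hMM0]; ring
    rw [e, norm_neg, norm_mul, nq, mul_assoc]
    gcongr
    exact hdiff k hk hkk nuM psiM nM pM
  refine ⟨c, (q * φ) * (q * κ1), k0, s0, cX q Cp C2 Cl ‖φ‖ + (q * C2) ^ 2 + 1, ?_, hk0, hk01, hs0,
    hs01, ?_, ?_, ?_⟩
  · have : (κ1 : ℂ) ≠ 0 := by exact_mod_cast hκ1.ne'
    exact mul_ne_zero (mul_ne_zero hc0' hφ) (mul_ne_zero hc0' this)
  · unfold cX; positivity
  · intro k hk hkk
    rw [D.B_zero]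
    unfold Fd
    rw [← hq, hMP0 k hk hkk, mul_zero, mul_zero, sub_zero, norm_mul]
    calc _ ≤ (q * C2 * ‖k‖ ^ 2) * (q * C2 * ‖k‖ ^ 2) :=
          mul_le_mul (h1PP k hk hkk) (h1MM k hk hkk) (norm_nonneg _) (by positivity)
      _ = (q * C2) ^ 2 * ‖k‖ ^ 4 := by ring
      _ ≤ _ := by
          have : 0 ≤ cX q Cp C2 Cl ‖φ‖ := by unfold cX; positivity
          gcongr; linarith
  · intro k R0 R M1 I1 ρ la W W' hk hkk hR0 hR hM1 hI1 hρ hla hW hW' hM hI hs hτ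
    obtain ⟨hu, hp1⟩ := hpert k R0 R M1 I1 ρ la W W' hk hkk hR0 hR hM1 hI1 hρ hla hW hW' hM hI hs
    refine ⟨hu, ?_⟩
    have hR00 : 0 < R0 := by linarith
    have hO0 : Out R0 (ρ * M1) (ρ * I1) (fun _ => 0) :=
      out_zero R0 _ _ (by positivity) (by positivity)
    have hW0 := (hpert k R0 R M1 I1 ρ ρ W (fun _ => 0) hk hkk hR0 hR hM1 hI1 hρ hρ hW hO0
      (by simpa using hW.bd) (by simpa using hW.int) hs).2
    have hW'0 := (hpert k R0 R M1 I1 ρ ρ W' (fun _ => 0) hk hkk hR0 hR hM1 hI1 hρ hρ hW' hO0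
      (by simpa using hW'.bd) (by simpa using hW'.int) hs).2
    rw [D.B_zero] at hW0 hW'0
    -- the outer difference
    have hYc := D.Y_const K k0 c1 hA c k hk hkk hcc (fun x => W x - W' x)
      (pot_sub hW.pot hW'.pot) (by
        intro α x
        rw [hW.hrot, hW'.hrot]; ring)
    have hL := hlead k R0 (la * I1) (fun x => W x - W' x) hk hkk hR0
      (pot_sub hW.pot hW'.pot) (by
        intro x hx
        rw [hW.out x hx, hW'.out x hx, sub_zero]) hI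
    rw [← hYc] at hL
    obtain ⟨ε, hε⟩ : ∃ ε : ℝ, ε = ‖k‖ / R0 + 1 / R0 ^ 2 := ⟨_, rfl⟩
    have hε0 : 0 ≤ ε := by rw [hε]; positivity
    obtain ⟨t, ht⟩ : ∃ t : ℝ, t = ρ * (R ^ 2 * M1 + I1 / R) := ⟨_, rfl⟩
    have ht0 : 0 ≤ t := by rw [ht]; positivity
    have ht1 : t ≤ 1 := by rw [ht]; exact hs.trans hs01
    rw [← hε] at hp1 hW0 hW'0 hL hτ
    rw [← ht] at hp1 hW0 hW'0
    rw [← hε, ← ht]
    have gen : ∀ (x y : ℂ) (b : ℝ), ‖x + y‖ ≤ Cp * b * t → ‖y‖ ≤ Cp * b → 0 ≤ b →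
        ‖x‖ ≤ 2 * Cp * b := by
      intro x y b h1 h2 hb
      have : x = (x + y) - y := by ring
      calc ‖x‖ = ‖(x + y) - y‖ := by rw [← this]
        _ ≤ ‖x + y‖ + ‖y‖ := norm_sub_le _ _
        _ ≤ Cp * b * t + Cp * b := add_le_add h1 h2
        _ ≤ Cp * b * 1 + Cp * b := by gcongr
        _ = 2 * Cp * b := by ring
    have hPset : (nuP : S →L[ℂ] ℂ) ∈ ({nuP, nuM} : Set (S →L[ℂ] ℂ)) := Set.mem_insert _ _
    have hMset : (nuM : S →L[ℂ] ℂ) ∈ ({nuP, nuM} : Set (S →L[ℂ] ℂ)) :=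
      Set.mem_insert_of_mem _ rfl
    have hpPset : (psiP : S) ∈ ({psiP, psiM} : Set S) := Set.mem_insert _ _
    have hpMset : (psiM : S) ∈ ({psiP, psiM} : Set S) := Set.mem_insert_of_mem _ rfl
    have conv : ∀ (x y : ℂ) (b : ℝ), 0 ≤ b →
        (‖x + y‖ ≤ Cp * b * ε ^ 2 * I1 * t ∧ ‖y‖ ≤ Cp * b * ε ^ 2 * I1) →
        ‖x‖ ≤ 2 * Cp * (b * ε ^ 2 * I1) := by
      intro x y b hb h
      refine gen x y (b * ε ^ 2 * I1) (h.1.trans (le_of_eq (by ring)))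
        (h.2.trans (le_of_eq (by ring))) (by positivity)
    have dPP := conv _ _ la hla (hp1 nuP hPset psiP hpPset)
    have dMM := conv _ _ la hla (hp1 nuM hMset psiM hpMset)
    have dPM := conv _ _ la hla (hp1 nuP hPset psiM hpMset)
    have eMM := conv _ _ ρ hρ (hW0 nuM hMset psiM hpMset)
    have eMP := conv _ _ ρ hρ (hW0 nuM hMset psiP hpPset)
    have ePP := conv _ _ ρ hρ (hW'0 nuP hPset psiP hpPset)
    have ePM := conv _ _ ρ hρ (hW'0 nuP hPset psiM hpMset)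
    rw [hMP0 k hk hkk, sub_zero] at eMP
    obtain ⟨qq1, qq2⟩ := hp1 nuM hMset psiP hpPset
    have w1 := h1PP k hk hkk
    have w2 := h1MM k hk hkk
    have w3 := hdiff k hk hkk nuP psiM nP pM
    rw [← hφdef] at w3
    unfold Fd
    rw [← hq]
    clear hp1 hW0 hW'0 hYc conv gen hpert hlead hdiff h1PP h1MM hMP0
    generalize nuM (Ring.inverse (D.A c k) (T k (fun x => W x - W' x)
      (Ring.inverse (D.A c k) psiP))) = Y0 at *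
    generalize (∫ z, (W z - W' z) * (Dk k ‖z‖ * (zp z / (‖z‖ : ℂ))) ^ 2) = J at *
    generalize nuP (Ring.inverse (D.B c k W) psiP) = PW at *
    generalize nuM (Ring.inverse (D.B c k W) psiM) = MW at *
    generalize nuP (Ring.inverse (D.B c k W) psiM) = pW at *
    generalize nuM (Ring.inverse (D.B c k W) psiP) = mW at *
    generalize nuP (Ring.inverse (D.B c k W') psiP) = PW' at *
    generalize nuM (Ring.inverse (D.B c k W') psiM) = MW' at *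
    generalize nuP (Ring.inverse (D.B c k W') psiM) = pW' at *
    generalize nuM (Ring.inverse (D.B c k W') psiP) = mW' at *
    generalize nuP (Ring.inverse (D.A c k) psiP) = PA at *
    generalize nuM (Ring.inverse (D.A c k) psiM) = MA at *
    generalize nuP (Ring.inverse (D.A c k) psiM) = pA at *
    have hk1 : ‖k‖ ≤ 1 := hkk.trans hk01
    have hk2 : ‖k‖ ^ 2 ≤ ‖k‖ := by nlinarith [norm_nonneg k]
    have hR0i : 0 ≤ 1 / R0 := by positivity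
    have key := scal q Cp C2 Cl (‖k‖ ^ 2) (‖k‖ + 1 / R0) t (ρ * ε ^ 2 * I1) (la * ε ^ 2 * I1)
      κ1 PW MW pW mW PW' MW' pW' mW' PA MA pA φ Y0 J hq0.le hCp.le hC20 hCl.le (by positivity)
      (hk2.trans hk1) (by linarith) ht0 (by positivity) (le_trans (le_of_eq (by ring)) hτ)
      (by positivity) w1 w2 w3 dPP dMM dPM eMM eMP ePP ePM
      (qq1.trans (le_of_eq (by ring))) (qq2.trans (le_of_eq (by ring)))
      (hL.trans (le_of_eq (by ring)))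
    refine key.trans ?_
    have hS0 : 0 ≤ la * ε ^ 2 * I1 * (‖k‖ + 1 / R0 + t + ρ * ε ^ 2 * I1) := by positivity
    calc cX q Cp C2 Cl ‖φ‖ * (la * ε ^ 2 * I1) * (‖k‖ + 1 / R0 + t + ρ * ε ^ 2 * I1)
        = cX q Cp C2 Cl ‖φ‖ * (la * ε ^ 2 * I1 * (‖k‖ + 1 / R0 + t + ρ * ε ^ 2 * I1)) := by ring
      _ ≤ (cX q Cp C2 Cl ‖φ‖ + (q * C2) ^ 2 + 1) *
          (la * ε ^ 2 * I1 * (‖k‖ + 1 / R0 + t + ρ * ε ^ 2 * I1)) := by
          apply mul_le_mul_of_nonneg_right _ hS0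
          have := sq_nonneg (q * C2)
          linarith
      _ = _ := by ring

end Dat

end Pool.Agent.Helper16.CE
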