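import Pool.Agent.Helper16.CE.Cv2

set_option autoImplicit false

namespace Pool.Agent.Helper16.CE
open MeasureTheory
open scoped ENNReal

/-- outer potentials: supported in `‖x‖ ≥ R0`, lowering the angular momentum by two -/
structure Out (R0 M I : ℝ) (W : E3 → ℂ) : Prop where
  pot : Pot W
  out : ∀ x, ‖x‖ < R0 → W x = 0
  hrot : ∀ (α : ℝ) x, W (rot α x) = Complex.exp (- (2 * (Complex.I * α))) * W x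
  bd : ∀ x, ‖W x‖ ≤ M
  int : ∫ x, ‖W x‖ ≤ I

/-- the full operator -/
noncomputable def Dat.B (D : Dat) (c k : ℂ) (W : E3 → ℂ) : S →L[ℂ] S :=
  1 + T k (fun x => Vc D.f c x + W x) + (D.c0 : ℂ) • P

/-- the determinant `F` is `O(k⁴)` for `W = 0`, and `F_W - F_{W'}` is computed to leading order -/
def Main1 (D : Dat) : Prop :=
  ∃ (c κ : ℂ) (k0 s0 C : ℝ), κ ≠ 0 ∧ 0 < k0 ∧ k0 ≤ 1 ∧ 0 < s0 ∧ s0 ≤ 1 ∧ 0 < C ∧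
    (∀ k : ℂ, 0 ≤ k.im → ‖k‖ ≤ k0 → ‖Fd D.c0 (D.B c k (fun _ => 0))‖ ≤ C * ‖k‖ ^ 4) ∧
    ∀ (k : ℂ) (R0 R M1 I1 ρ la : ℝ) (W W' : E3 → ℂ), 0 ≤ k.im → ‖k‖ ≤ k0 → 2 ≤ R0 → 0 < R →
      0 ≤ M1 → 0 ≤ I1 → 0 ≤ ρ → 0 ≤ la → Out R0 (ρ * M1) (ρ * I1) W →
      Out R0 (ρ * M1) (ρ * I1) W' → (∀ x, ‖W x - W' x‖ ≤ la * M1) →
      ∫ x, ‖W x - W' x‖ ≤ la * I1 → ρ * (R ^ 2 * M1 + I1 / R) ≤ s0 →
      (‖k‖ / R0 + 1 / R0 ^ 2) ^ 2 * (ρ * I1) ≤ 1 →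
      IsUnit (D.B c k W) ∧
      ‖Fd D.c0 (D.B c k W) - Fd D.c0 (D.B c k W') -
          κ * ∫ z, (W z - W' z) * (Dk k ‖z‖ * (zp z / (‖z‖ : ℂ))) ^ 2‖ ≤
        C * la * (‖k‖ / R0 + 1 / R0 ^ 2) ^ 2 * I1 *
          (‖k‖ + 1 / R0 + ρ * (R ^ 2 * M1 + I1 / R) +
            (‖k‖ / R0 + 1 / R0 ^ 2) ^ 2 * (ρ * I1))

end Pool.Agent.Helper16.CE
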