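import Pool.Agent.Helper16.CE.Mn

set_option autoImplicit false

namespace Pool.Agent.Helper16.CE
open MeasureTheory
open Pool.Agent.Helper96.CE (T_norm T_add T_far)
open Pool.Agent.Helper78.CE (pot_Q cut_exists T_outer T_outer_in dipole P_eq)
open scoped ENNReal

theorem psi_far : ∃ C : ℝ, 0 < C ∧ ∀ ψ ∈ ({psiP, psiM} : Set S), ∀ x : E3, 2 ≤ ‖x‖ →
    ‖ev ψ x‖ ≤ C * (1 / ‖x‖ ^ 2) := by
  obtain ⟨m2, C, hm2, hC, h⟩ := dipole
  have hj : ∀ j : Fin 3, j ≠ 2 → ∀ x : E3, 2 ≤ ‖x‖ → ‖ev (psi j) x‖ ≤ C * (1 / ‖x‖ ^ 2) := by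
    intro j hj x hx
    have h1 := (h j 0 x (by simp) (by simp) hx).2
    rw [psi_spec j hj]
    simpa using h1
  refine ⟨2 * C, by linarith, ?_⟩
  intro ψ hψ x hx
  have h0 := hj 0 (by decide) x hx
  have h1 := hj 1 (by decide) x hx
  rcases hψ with rfl | hψ
  · unfold psiP
    rw [ev_add, ev_smul]
    refine (norm_add_le _ _).trans ?_
    rw [norm_mul, Complex.norm_I, one_mul]
    linarith
  · rw [Set.mem_singleton_iff] at hψ
    rw [hψ]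
    unfold psiM
    rw [ev_sub, ev_smul]
    refine (norm_sub_le _ _).trans ?_
    rw [norm_mul, Complex.norm_I, one_mul]
    linarith

/-- an operator with inverse `G` only sees the values in the unit ball -/
theorem nu_cut (u : S) (hu : ∀ x, ‖x‖ < 1 → ev u x = 0) : nuP u = 0 ∧ nuM u = 0 := by
  have hm : ∀ j : Fin 3, mom j u = 0 := by
    intro j
    rw [mom_spec]
    apply setIntegral_eq_zero_of_forall_eq_zero
    intro y hy
    rw [hu y (by simpa using hy), mul_zero]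
  unfold nuP nuM
  simp [hm]

theorem T_cut (k : ℂ) (hk : 0 ≤ k.im) (V : E3 → ℂ) (hV : Pot V) (hV1 : ∀ x, 1 ≤ ‖x‖ → V x = 0)
    (u : S) (hu : ∀ x, ‖x‖ < 1 → ev u x = 0) : T k V u = 0 := by
  apply ev_ext
  intro x
  rw [T_spec k hk V hV, ev_zero]
  have : ∀ y, gk k ‖x - y‖ * (V y * ev u y) = 0 := by
    intro y
    by_cases hy : ‖y‖ < 1
    · rw [hu y hy]; ring
    · rw [hV1 y (not_lt.1 hy)]; ring
  simp [this]

namespace Dat
variable (D : Dat)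

theorem A_cut (c k : ℂ) (hk : 0 ≤ k.im) (u : S) (hu : ∀ x, ‖x‖ < 1 → ev u x = 0) :
    D.A c k u = u := by
  have h : D.A c k u = u + T k (Vc D.f c) u + (D.c0 : ℂ) • P u := rfl
  rw [h, T_cut k hk _ (D.pVc c) (Vc_out D.f c) u hu, P_app, (nu_cut u hu).1, (nu_cut u hu).2]
  simp

theorem B_eq (c k : ℂ) (hk : 0 ≤ k.im) (W : E3 → ℂ) (hW : Pot W) :
    D.B c k W = D.A c k + T k W := by
  unfold B A
  rw [T_add k hk _ _ (D.pVc c) hW]
  abel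

theorem nu_inner (c k : ℂ) (hk : 0 ≤ k.im) (K : ℝ) (hu : IsUnit (D.A c k))
    (hK : ‖Ring.inverse (D.A c k)‖ ≤ K) (nn : ℝ)
    (hnn : ∀ ν ∈ ({nuP, nuM} : Set (S →L[ℂ] ℂ)), ‖ν‖ ≤ nn)
    (f : S) (p : ℝ) (hp : 0 ≤ p) (hf : ∀ x, ‖x‖ < 1 → ‖ev f x‖ ≤ p)
    (ν : S →L[ℂ] ℂ) (hν : ν ∈ ({nuP, nuM} : Set (S →L[ℂ] ℂ))) :
    ‖ν (Ring.inverse (D.A c k) f)‖ ≤ nn * K * p := by
  obtain ⟨w, hw⟩ := cut_exists f
  have hcut : ∀ x, ‖x‖ < 1 → ev (f - w) x = 0 := by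
    intro x hx
    rw [ev_sub, hw, if_pos hx, sub_self]
  have h1 : Ring.inverse (D.A c k) (f - w) = f - w := by
    have := app_inv (D.A c k) hu (f - w)
    rw [D.A_cut c k hk _ hcut] at this
    exact this
  have h2 : ν (f - w) = 0 := by
    rcases hν with rfl | hν
    · exact (nu_cut _ hcut).1
    · rw [Set.mem_singleton_iff] at hν
      rw [hν]; exact (nu_cut _ hcut).2
  have h3 : ν (Ring.inverse (D.A c k) f) = ν (Ring.inverse (D.A c k) w) := by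
    have hfw : f = (f - w) + w := by abel
    conv_lhs => rw [hfw]
    rw [map_add, map_add, h1, h2, zero_add]
  have hwn : ‖w‖ ≤ p := by
    apply norm_le_ev _ _ hp
    intro x
    rw [hw]
    split_ifs with hx
    · exact hf x hx
    · simpa using hp
  have hK0 : 0 ≤ K := (ContinuousLinearMap.opNorm_nonneg _).trans hK
  have hnn0 : 0 ≤ nn := (ContinuousLinearMap.opNorm_nonneg _).trans (hnn ν hν)
  rw [h3]
  calc ‖ν (Ring.inverse (D.A c k) w)‖ ≤ ‖ν‖ * ‖Ring.inverse (D.A c k) w‖ :=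
        ContinuousLinearMap.le_opNorm _ _
    _ ≤ nn * (K * p) := by
        refine mul_le_mul (hnn ν hν) ?_ (norm_nonneg _) hnn0
        refine (ContinuousLinearMap.le_opNorm _ _).trans ?_
        gcongr
    _ = nn * K * p := by ring

/-- decay of solutions in the outer region -/
theorem outer_dec (c : ℂ) (nn : ℝ)
    (hnn : ∀ ν ∈ ({nuP, nuM} : Set (S →L[ℂ] ℂ)), ‖ν‖ ≤ nn) (hnn0 : 0 ≤ nn) :
    ∃ Co : ℝ, 0 < Co ∧ ∀ (k : ℂ) (R0 R M I : ℝ) (W : E3 → ℂ), 0 ≤ k.im → 2 ≤ R0 → 0 < R →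
      Out R0 M I W → R ^ 2 * M + I / R ≤ 1 / 2 → ∀ (g y : S) (py : ℝ), D.B c k W g = y →
      (∀ x, R0 ≤ ‖x‖ → ‖ev y x‖ ≤ py) →
      ∀ x, R0 ≤ ‖x‖ → ‖ev g x‖ ≤ 2 * (py + Co * (‖k‖ / R0 + 1 / R0 ^ 2) * ‖g‖) := by
  obtain ⟨Cf, hCf, hfar⟩ := T_far (Vc D.f c) (D.pVc c) (Vc_out D.f c)
  obtain ⟨Cψ, hCψ, hψ⟩ := psi_far
  refine ⟨Cf + D.c0 * (2 * (nn * Cψ)), by have := D.hc0; positivity, ?_⟩
  intro k R0 R M I W hk hR0 hR hW hs g y py hBg hy x0 hx0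
  have hc0 := D.hc0
  have hR00 : 0 < R0 := by linarith
  set ε : ℝ := ‖k‖ / R0 + 1 / R0 ^ 2 with hε
  have hε0 : 0 ≤ ε := by positivity
  set p : ℝ := sSup {r | ∃ x, R0 ≤ ‖x‖ ∧ r = ‖ev g x‖} with hp
  have hbdd : BddAbove {r | ∃ x, R0 ≤ ‖x‖ ∧ r = ‖ev g x‖} := by
    refine ⟨‖g‖, ?_⟩
    rintro r ⟨x, -, rfl⟩
    exact ev_le g x
  have hle : ∀ x, R0 ≤ ‖x‖ → ‖ev g x‖ ≤ p := fun x hx => le_csSup hbdd ⟨x, hx, rfl⟩
  have hp0 : 0 ≤ p := (norm_nonneg _).trans (hle x0 hx0)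
  have hstep : ∀ x, R0 ≤ ‖x‖ → ‖ev g x‖ ≤
      (py + (Cf + D.c0 * (2 * (nn * Cψ))) * ε * ‖g‖) + 1 / 2 * p := by
    intro x hx
    have hx2 : 2 ≤ ‖x‖ := hR0.trans hx
    have e1 : g = y - T k (Vc D.f c) g - (D.c0 : ℂ) • P g - T k W g := by
      rw [← hBg, D.B_eq c k hk W hW.pot]
      have : (D.A c k + T k W) g = g + T k (Vc D.f c) g + (D.c0 : ℂ) • P g + T k W g := rfl
      rw [this]; abel
    have hq : 1 / ‖x‖ ^ 2 ≤ ε := by
      have h1 : 1 / ‖x‖ ^ 2 ≤ 1 / R0 ^ 2 := by gcongr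
      have h2 : 0 ≤ ‖k‖ / R0 := by positivity
      linarith
    have hq2 : ‖k‖ / ‖x‖ + 1 / ‖x‖ ^ 2 ≤ ε := by
      rw [hε]; gcongr
    have b1 : ‖ev (T k (Vc D.f c) g) x‖ ≤ Cf * ε * ‖g‖ := by
      refine (hfar k hk g x hx2).trans ?_
      gcongr
    have b2 : ‖ev ((D.c0 : ℂ) • P g) x‖ ≤ D.c0 * (2 * (nn * Cψ)) * ε * ‖g‖ := by
      rw [ev_smul, norm_mul, Complex.norm_real, Real.norm_of_nonneg hc0.le, P_app, ev_add,
        ev_smul, ev_smul]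
      have n1 : ‖nuP g‖ ≤ nn * ‖g‖ := (ContinuousLinearMap.le_opNorm _ _).trans (by
        gcongr; exact hnn nuP (by simp))
      have n2 : ‖nuM g‖ ≤ nn * ‖g‖ := (ContinuousLinearMap.le_opNorm _ _).trans (by
        gcongr; exact hnn nuM (by simp))
      have n3 : ‖ev psiP x‖ ≤ Cψ * ε := (hψ psiP (by simp) x hx2).trans (by gcongr)
      have n4 : ‖ev psiM x‖ ≤ Cψ * ε := (hψ psiM (by simp) x hx2).trans (by gcongr)
      calc D.c0 * ‖nuP g * ev psiP x + nuM g * ev psiM x‖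
          ≤ D.c0 * ((nn * ‖g‖) * (Cψ * ε) + (nn * ‖g‖) * (Cψ * ε)) := by
            gcongr
            refine (norm_add_le _ _).trans ?_
            rw [norm_mul, norm_mul]
            gcongr
        _ = D.c0 * (2 * (nn * Cψ)) * ε * ‖g‖ := by ring
    have b3 : ‖ev (T k W g) x‖ ≤ 1 / 2 * p := by
      refine (T_outer k hk R0 W hW.pot hW.out M hW.bd g p hp0 hle x R hR).trans ?_
      gcongr
      refine le_trans ?_ hs
      gcongr
      exact hW.int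
    conv_lhs => rw [e1]
    rw [ev_sub, ev_sub, ev_sub]
    calc _ ≤ ‖ev y x‖ + ‖ev (T k (Vc D.f c) g) x‖ + ‖ev ((D.c0 : ℂ) • P g) x‖ +
          ‖ev (T k W g) x‖ := by
          refine (norm_sub_le _ _).trans (add_le_add_left ?_ _)
          refine (norm_sub_le _ _).trans (add_le_add_left ?_ _)
          exact norm_sub_le _ _
      _ ≤ py + Cf * ε * ‖g‖ + D.c0 * (2 * (nn * Cψ)) * ε * ‖g‖ + 1 / 2 * p := by
          gcongr
          exact hy x hx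
      _ = _ := by ring
  have hp2 : p ≤ (py + (Cf + D.c0 * (2 * (nn * Cψ))) * ε * ‖g‖) + 1 / 2 * p := by
    refine csSup_le ⟨‖ev g x0‖, x0, hx0, rfl⟩ ?_
    rintro r ⟨x, hx, rfl⟩
    exact hstep x hx
  have := hle x0 hx0
  linarith

end Dat

end Pool.Agent.Helper16.CE
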