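import Pool.Agent.Helper16.CE.P1

set_option autoImplicit false

namespace Pool.Agent.Helper16.CE
open MeasureTheory
open Pool.Agent.Helper96.CE (T_norm T_add T_far)
open Pool.Agent.Helper78.CE (pot_Q cut_exists T_outer T_outer_in dipole P_eq)
open scoped ENNReal

theorem op_apply_norm (X : S →L[ℂ] S) (K : ℝ) (hX : ‖X‖ ≤ K) (u : S) : ‖X u‖ ≤ K * ‖u‖ :=
  (ContinuousLinearMap.le_opNorm _ _).trans (by gcongr)

theorem pert (D : Dat) (K k0 c1 : ℝ) (hK : 1 ≤ K) (hk01 : k0 ≤ 1)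
    (hA : ∀ c k : ℂ, 0 ≤ k.im → ‖k‖ ≤ k0 → ‖c‖ < c1 →
      IsUnit (D.A c k) ∧ ‖Ring.inverse (D.A c k)‖ ≤ K) (c : ℂ) (hc : ‖c‖ < c1) :
    ∃ s0 C : ℝ, 0 < s0 ∧ s0 ≤ 1 ∧ 0 < C ∧
    ∀ (k : ℂ) (R0 R M1 I1 ρ la : ℝ) (W W' : E3 → ℂ), 0 ≤ k.im → ‖k‖ ≤ k0 → 2 ≤ R0 → 0 < R →
      0 ≤ M1 → 0 ≤ I1 → 0 ≤ ρ → 0 ≤ la → Out R0 (ρ * M1) (ρ * I1) W →
      Out R0 (ρ * M1) (ρ * I1) W' → (∀ x, ‖W x - W' x‖ ≤ la * M1) →
      ∫ x, ‖W x - W' x‖ ≤ la * I1 → ρ * (R ^ 2 * M1 + I1 / R) ≤ s0 →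
      IsUnit (D.B c k W) ∧
      ∀ ν ∈ ({nuP, nuM} : Set (S →L[ℂ] ℂ)), ∀ ψ ∈ ({psiP, psiM} : Set S),
        ‖ν (Ring.inverse (D.B c k W) ψ) - ν (Ring.inverse (D.B c k W') ψ) +
            ν (Ring.inverse (D.A c k) (T k (fun x => W x - W' x) (Ring.inverse (D.A c k) ψ)))‖ ≤
          C * la * (‖k‖ / R0 + 1 / R0 ^ 2) ^ 2 * I1 * (ρ * (R ^ 2 * M1 + I1 / R)) ∧
        ‖ν (Ring.inverse (D.A c k) (T k (fun x => W x - W' x) (Ring.inverse (D.A c k) ψ)))‖ ≤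
          C * la * (‖k‖ / R0 + 1 / R0 ^ 2) ^ 2 * I1 := by
  obtain ⟨nn, hnn0, hnn⟩ : ∃ nn : ℝ, 0 ≤ nn ∧
      ∀ ν ∈ ({nuP, nuM} : Set (S →L[ℂ] ℂ)), ‖ν‖ ≤ nn := by
    refine ⟨max ‖nuP‖ ‖nuM‖, le_max_of_le_left (ContinuousLinearMap.opNorm_nonneg _), ?_⟩
    intro ν hν
    rcases hν with rfl | hν
    · exact le_max_left _ _
    · rw [Set.mem_singleton_iff] at hν
      rw [hν]; exact le_max_right _ _
  obtain ⟨pp, hpp0, hpp⟩ : ∃ pp : ℝ, 0 ≤ pp ∧ ∀ ψ ∈ ({psiP, psiM} : Set S), ‖ψ‖ ≤ pp := by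
    refine ⟨max ‖psiP‖ ‖psiM‖, le_max_of_le_left (norm_nonneg _), ?_⟩
    intro ψ hψ
    rcases hψ with rfl | hψ
    · exact le_max_left _ _
    · rw [Set.mem_singleton_iff] at hψ
      rw [hψ]; exact le_max_right _ _
  obtain ⟨Co, hCo, hout⟩ := D.outer_dec c nn hnn hnn0
  obtain ⟨Cψ, hCψ, hψfar⟩ := psi_far
  -- C5 : outer size of the solutions with right hand side psi
  obtain ⟨C5, hC50, hC5⟩ : ∃ C5 : ℝ, 0 < C5 ∧ 2 * (Cψ + Co * (2 * K * pp)) ≤ C5 :=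
    ⟨2 * (Cψ + Co * (2 * K * pp)), by positivity, le_rfl⟩
  obtain ⟨C6, hC60, hC6⟩ : ∃ C6 : ℝ, 0 < C6 ∧ 2 * (C5 + Co * (2 * K * C5)) ≤ C6 :=
    ⟨2 * (C5 + Co * (2 * K * C5)), by positivity, le_rfl⟩
  refine ⟨1 / (2 * K), nn * K * (2 * C6) + nn * K * C5 + 1, by positivity, ?_, by positivity, ?_⟩
  · rw [div_le_one (by positivity)]; linarith
  intro k R0 R M1 I1 ρ la W W' hk hkk hR0 hR hM1 hI1 hρ hla hW hW' hM hI hs
  have hR00 : 0 < R0 := by linarith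
  obtain ⟨ε, hε⟩ : ∃ ε : ℝ, ε = ‖k‖ / R0 + 1 / R0 ^ 2 := ⟨_, rfl⟩
  have hε0 : 0 ≤ ε := by rw [hε]; positivity
  have hε1 : ε ≤ 1 := by
    rw [hε]
    have a1 : ‖k‖ / R0 ≤ 1 / 2 := by
      rw [div_le_div_iff₀ hR00 (by norm_num)]
      have := hkk.trans hk01
      nlinarith [norm_nonneg k]
    have a2 : 1 / R0 ^ 2 ≤ 1 / 4 := by
      apply one_div_le_one_div_of_le (by norm_num)
      nlinarith
    linarith
  obtain ⟨s1, hs1⟩ : ∃ s1 : ℝ, s1 = R ^ 2 * M1 + I1 / R := ⟨_, rfl⟩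
  have hs10 : 0 ≤ s1 := by rw [hs1]; positivity
  rw [← hs1] at hs
  have ht12 : ρ * s1 ≤ 1 / 2 := hs.trans (by
    apply one_div_le_one_div_of_le (by norm_num); linarith)
  have ht0 : 0 ≤ ρ * s1 := by positivity
  rw [← hε, ← hs1]
  obtain ⟨hAu, hAK⟩ := hA c k hk hkk hc
  -- sizes of the outer potentials
  have size : ∀ W : E3 → ℂ, Out R0 (ρ * M1) (ρ * I1) W → ∀ (u : S) (p : ℝ), 0 ≤ p →
      (∀ x, R0 ≤ ‖x‖ → ‖ev u x‖ ≤ p) → ‖T k W u‖ ≤ ρ * s1 * p := by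
    intro W hW u p hp hu
    apply norm_le_ev _ _ (by positivity)
    intro x
    refine (T_outer k hk R0 W hW.pot hW.out (ρ * M1) hW.bd u p hp hu x R hR).trans ?_
    gcongr
    have := hW.int
    calc R ^ 2 * (ρ * M1) + (∫ y, ‖W y‖) / R ≤ R ^ 2 * (ρ * M1) + (ρ * I1) / R := by gcongr
      _ = ρ * s1 := by rw [hs1]; ring
  have sizeR : ∀ W : E3 → ℂ, Out R0 (ρ * M1) (ρ * I1) W →
      R ^ 2 * (ρ * M1) + (ρ * I1) / R ≤ 1 / 2 := by
    intro W hW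
    calc R ^ 2 * (ρ * M1) + (ρ * I1) / R = ρ * s1 := by rw [hs1]; ring
      _ ≤ _ := ht12
  have unit : ∀ W : E3 → ℂ, Out R0 (ρ * M1) (ρ * I1) W →
      IsUnit (D.B c k W) ∧ ‖Ring.inverse (D.B c k W)‖ ≤ 2 * K := by
    intro W hW
    apply inv_pert (D.A c k) _ hAu K (by linarith) hAK
    rw [D.B_eq c k hk W hW.pot, add_sub_cancel_left]
    apply ContinuousLinearMap.opNorm_le_bound _ (by positivity)
    intro u
    refine (size W hW u ‖u‖ (norm_nonneg _) (fun x _ => ev_le u x)).trans ?_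
    gcongr
  -- the solutions
  have sol : ∀ W : E3 → ℂ, Out R0 (ρ * M1) (ρ * I1) W → ∀ (y : S) (py : ℝ),
      (∀ x, R0 ≤ ‖x‖ → ‖ev y x‖ ≤ py) → ∀ x, R0 ≤ ‖x‖ →
      ‖ev (Ring.inverse (D.B c k W) y) x‖ ≤ 2 * (py + Co * ε * (2 * K * ‖y‖)) := by
    intro W hW y py hy x hx
    have h := hout k R0 R (ρ * M1) (ρ * I1) W hk hR0 hR hW (sizeR W hW)
      (Ring.inverse (D.B c k W) y) y py (inv_app _ (unit W hW).1 y) hy x hx
    rw [← hε] at h
    refine h.trans ?_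
    gcongr
    exact op_apply_norm _ _ (unit W hW).2 y
  have hO0 : Out R0 (ρ * M1) (ρ * I1) (fun _ => 0) :=
    { pot := ⟨measurable_const, ⟨0, by simp⟩, integrable_zero _ _ _, by simp, by simp⟩
      out := by simp
      hrot := by simp
      bd := by intro x; simp; positivity
      int := by simp; positivity }
  have B0 : D.B c k (fun _ => 0) = D.A c k := by
    unfold Dat.B Dat.A
    simp only [add_zero]
  refine ⟨(unit W hW).1, ?_⟩
  intro ν hν ψ hψ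
  have hψn := hpp ψ hψ
  have hψo : ∀ x, R0 ≤ ‖x‖ → ‖ev ψ x‖ ≤ Cψ * ε := by
    intro x hx
    refine (hψfar ψ hψ x (hR0.trans hx)).trans ?_
    gcongr
    have h1 : 1 / ‖x‖ ^ 2 ≤ 1 / R0 ^ 2 := by gcongr
    have h2 : 0 ≤ ‖k‖ / R0 := by positivity
    rw [hε]; linarith
  have solψ : ∀ W : E3 → ℂ, Out R0 (ρ * M1) (ρ * I1) W → ∀ x, R0 ≤ ‖x‖ →
      ‖ev (Ring.inverse (D.B c k W) ψ) x‖ ≤ C5 * ε := by
    intro W hW x hx
    refine (sol W hW ψ (Cψ * ε) hψo x hx).trans ?_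
    calc 2 * (Cψ * ε + Co * ε * (2 * K * ‖ψ‖)) ≤ 2 * (Cψ * ε + Co * ε * (2 * K * pp)) := by
          gcongr
      _ = 2 * (Cψ + Co * (2 * K * pp)) * ε := by ring
      _ ≤ C5 * ε := by gcongr
  -- the difference potential
  have hdp : Pot (fun x => W x - W' x) := pot_sub hW.pot hW'.pot
  have hdo : ∀ x, ‖x‖ < R0 → (fun x => W x - W' x) x = 0 := by
    intro x hx
    simp only [hW.out x hx, hW'.out x hx, sub_zero]
  have sized : ∀ (u : S) (p : ℝ), 0 ≤ p →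
      (∀ x, R0 ≤ ‖x‖ → ‖ev u x‖ ≤ p) → ‖T k (fun x => W x - W' x) u‖ ≤ la * s1 * p := by
    intro u p hp hu
    apply norm_le_ev _ _ (by positivity)
    intro x
    refine (T_outer k hk R0 _ hdp hdo (la * M1) hM u p hp hu x R hR).trans ?_
    gcongr
    calc R ^ 2 * (la * M1) + (∫ y, ‖W y - W' y‖) / R ≤ R ^ 2 * (la * M1) + (la * I1) / R := by
          gcongr
      _ = la * s1 := by rw [hs1]; ring
  have inner_d : ∀ (u : S) (p : ℝ), 0 ≤ p → (∀ x, R0 ≤ ‖x‖ → ‖ev u x‖ ≤ p) →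
      ∀ x, ‖x‖ < 1 → ‖ev (T k (fun x => W x - W' x) u) x‖ ≤ ε * (la * I1) * p := by
    intro u p hp hu x hx
    have h := T_outer_in k hk R0 hR0 _ hdp hdo u p hu x hx
    rw [← hε] at h
    refine h.trans ?_
    gcongr
  have inner_W : ∀ (u : S) (p : ℝ), 0 ≤ p → (∀ x, R0 ≤ ‖x‖ → ‖ev u x‖ ≤ p) →
      ∀ x, ‖x‖ < 1 → ‖ev (T k W u) x‖ ≤ ε * (ρ * I1) * p := by
    intro u p hp hu x hx
    have h := T_outer_in k hk R0 hR0 _ hW.pot hW.out u p hu x hx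
    rw [← hε] at h
    refine h.trans ?_
    gcongr
    exact hW.int
  set G := Ring.inverse (D.A c k) with hG
  set u' := Ring.inverse (D.B c k W') ψ with hu'
  set Td := T k (fun x => W x - W' x) with hTd
  set g := Ring.inverse (D.B c k W) (Td u') with hg
  set g' := Ring.inverse (D.B c k W') (T k W' (G ψ)) with hg'
  have hGψ : ∀ x, R0 ≤ ‖x‖ → ‖ev (G ψ) x‖ ≤ C5 * ε := by
    have := solψ _ hO0
    rw [B0] at this
    exact this
  have hu'o : ∀ x, R0 ≤ ‖x‖ → ‖ev u' x‖ ≤ C5 * ε := solψ W' hW'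
  have hTdu' : ‖Td u'‖ ≤ la * s1 * (C5 * ε) := sized u' _ (by positivity) hu'o
  have hgo : ∀ x, R0 ≤ ‖x‖ → ‖ev g x‖ ≤ C6 * (la * s1) * ε := by
    intro x hx
    have h := sol W hW (Td u') (la * s1 * (C5 * ε)) (fun x _ => (ev_le _ x).trans hTdu') x hx
    refine h.trans ?_
    calc 2 * (la * s1 * (C5 * ε) + Co * ε * (2 * K * ‖Td u'‖))
        ≤ 2 * (la * s1 * (C5 * ε) + Co * 1 * (2 * K * (la * s1 * (C5 * ε)))) := by gcongr
      _ = 2 * (C5 + Co * (2 * K * C5)) * (la * s1) * ε := by ring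
      _ ≤ C6 * (la * s1) * ε := by gcongr
  have hTW' : ‖T k W' (G ψ)‖ ≤ ρ * s1 * (C5 * ε) := size W' hW' (G ψ) _ (by positivity) hGψ
  have hg'o : ∀ x, R0 ≤ ‖x‖ → ‖ev g' x‖ ≤ C6 * (ρ * s1) * ε := by
    intro x hx
    have h := sol W' hW' (T k W' (G ψ)) (ρ * s1 * (C5 * ε))
      (fun x _ => (ev_le _ x).trans hTW') x hx
    refine h.trans ?_
    calc 2 * (ρ * s1 * (C5 * ε) + Co * ε * (2 * K * ‖T k W' (G ψ)‖))
        ≤ 2 * (ρ * s1 * (C5 * ε) + Co * 1 * (2 * K * (ρ * s1 * (C5 * ε)))) := by gcongr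
      _ = 2 * (C5 + Co * (2 * K * C5)) * (ρ * s1) * ε := by ring
      _ ≤ C6 * (ρ * s1) * ε := by gcongr
  -- the algebraic identity
  have hBW := D.B_eq c k hk W hW.pot
  have hBW' := D.B_eq c k hk W' hW'.pot
  have hTsub : Td = T k W - T k W' := T_sub k hk W W' hW.pot hW'.pot
  have i1 : Ring.inverse (D.B c k W) ψ = u' - g := by
    -- B_W (u' - g) = B_{W'} u' + Td u' - Td u' = ψ
    have h1 : D.B c k W (u' - g) = ψ := by
      rw [map_sub, hg, inv_app _ (unit W hW).1]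
      have h2 : D.B c k W u' = D.B c k W' u' + Td u' := by
        rw [hBW, hBW', hTsub]
        simp only [ContinuousLinearMap.add_apply, ContinuousLinearMap.sub_apply]
        abel
      rw [h2, hu', inv_app _ (unit W' hW').1]
      abel
    rw [← h1, app_inv _ (unit W hW).1]
  have i2 : u' = G ψ - g' := by
    have h1 : D.B c k W' (G ψ - g') = ψ := by
      rw [map_sub, hg', inv_app _ (unit W' hW').1]
      have h2 : D.B c k W' (G ψ) = D.A c k (G ψ) + T k W' (G ψ) := by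
        rw [hBW']; rfl
      rw [h2, hG, inv_app _ hAu]
      abel
    rw [hu']
    conv_lhs => rw [← h1]
    rw [app_inv _ (unit W' hW').1]
  have i3 : g = G (Td u') - G (T k W g) := by
    have h1 : D.A c k g + T k W g = Td u' := by
      have h2 : D.B c k W g = Td u' := by rw [hg, inv_app _ (unit W hW).1]
      rw [hBW] at h2
      exact h2
    have h3 : D.A c k g = Td u' - T k W g := by rw [← h1]; abel
    have h4 := congrArg G h3
    rw [hG, app_inv _ hAu, map_sub] at h4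
    exact h4
  have id1 : ν (Ring.inverse (D.B c k W) ψ) - ν u' + ν (G (Td (G ψ))) =
      ν (G (T k W g)) + ν (G (Td g')) := by
    rw [i1, map_sub]
    have e1 : ν g = ν (G (Td u')) - ν (G (T k W g)) := by
      conv_lhs => rw [i3]
      rw [map_sub]
    have e2 : ν (G (Td u')) = ν (G (Td (G ψ))) - ν (G (Td g')) := by
      conv_lhs => rw [i2]
      rw [map_sub, map_sub, map_sub]
    rw [e1, e2]; ring
  have n1 : ‖ν (G (T k W g))‖ ≤ nn * K * (ε * (ρ * I1) * (C6 * (la * s1) * ε)) :=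
    D.nu_inner c k hk K hAu hAK nn hnn _ _ (by positivity)
      (inner_W g _ (by positivity) hgo) ν hν
  have n2 : ‖ν (G (Td g'))‖ ≤ nn * K * (ε * (la * I1) * (C6 * (ρ * s1) * ε)) :=
    D.nu_inner c k hk K hAu hAK nn hnn _ _ (by positivity)
      (inner_d g' _ (by positivity) hg'o) ν hν
  have n3 : ‖ν (G (Td (G ψ)))‖ ≤ nn * K * (ε * (la * I1) * (C5 * ε)) :=
    D.nu_inner c k hk K hAu hAK nn hnn _ _ (by positivity)
      (inner_d (G ψ) _ (by positivity) hGψ) ν hν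
  constructor
  · rw [id1]
    calc ‖ν (G (T k W g)) + ν (G (Td g'))‖
        ≤ nn * K * (ε * (ρ * I1) * (C6 * (la * s1) * ε)) +
          nn * K * (ε * (la * I1) * (C6 * (ρ * s1) * ε)) := (norm_add_le _ _).trans (by gcongr)
      _ = (nn * K * (2 * C6)) * (la * ε ^ 2 * I1 * (ρ * s1)) := by ring
      _ ≤ (nn * K * (2 * C6) + nn * K * C5 + 1) * (la * ε ^ 2 * I1 * (ρ * s1)) := by
          apply mul_le_mul_of_nonneg_right _ (by positivity)
          have : 0 ≤ nn * K * C5 := by positivity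
          linarith
      _ = _ := by ring
  · refine n3.trans ?_
    calc nn * K * (ε * (la * I1) * (C5 * ε)) = (nn * K * C5) * (la * ε ^ 2 * I1) := by ring
      _ ≤ (nn * K * (2 * C6) + nn * K * C5 + 1) * (la * ε ^ 2 * I1) := by
          apply mul_le_mul_of_nonneg_right _ (by positivity)
          have : 0 ≤ nn * K * (2 * C6) := by positivity
          linarith
      _ = _ := by ring

end Pool.Agent.Helper16.CE
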