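import Pool.Agent.Helper16.CE.Base
import Pool.Agent.Helper96.CE.K1
import Pool.Agent.Helper78.CE.K2
import Pool.Agent.Helper78.CE.Dip
import Pool.Agent.Helper78.CE.MV

set_option autoImplicit false

namespace Pool.Agent.Helper16.CE
open MeasureTheory
open Pool.Agent.Helper96.CE (sing_one sing_two)
open scoped ENNReal

theorem gk_norm_le (k : ℂ) (hk : 0 ≤ k.im) (r : ℝ) (hr : 0 ≤ r) :
    ‖gk k r‖ ≤ (4 * Real.pi)⁻¹ * (1 / r) := by
  unfold gk
  rw [norm_div, Complex.norm_exp, Complex.norm_real, Real.norm_of_nonneg (by positivity)]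
  have h1 : (Complex.I * k * r).re = - (k.im * r) := by
    simp [Complex.mul_re, Complex.mul_im]
  rw [h1]
  have h2 : Real.exp (- (k.im * r)) ≤ 1 := Real.exp_le_one_iff.2 (by
    have := mul_nonneg hk hr; linarith)
  calc Real.exp (- (k.im * r)) / (4 * Real.pi * r) ≤ 1 / (4 * Real.pi * r) := by
        gcongr
    _ = (4 * Real.pi)⁻¹ * (1 / r) := by
        rw [one_div, mul_inv, one_div]

theorem meas_gk (k : ℂ) : Measurable (gk k) := by
  unfold gk
  exact ((Complex.continuous_exp.comp (by fun_prop)).measurable).div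
    (Complex.continuous_ofReal.measurable.comp (by fun_prop))

theorem meas_ker (k : ℂ) (V : E3 → ℂ) (hV : Measurable V) :
    Measurable (Function.uncurry fun x y : E3 => gk k ‖x - y‖ * V y) := by
  apply Measurable.mul
  · exact (meas_gk k).comp (measurable_fst.sub measurable_snd).norm
  · exact hV.comp measurable_snd

/-- integrability and bound for kernel integrals -/
theorem ker_int (k : ℂ) (hk : 0 ≤ k.im) (g : E3 → ℂ) (hm : Measurable g) (M : ℝ)
    (hM : ∀ y, ‖g y‖ ≤ M) (hi : Integrable g volume) (x : E3) :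
    Integrable (fun y => gk k ‖x - y‖ * g y) volume ∧
    ∀ R : ℝ, 0 < R → ‖∫ y, gk k ‖x - y‖ * g y‖ ≤
      (4 * Real.pi)⁻¹ * (2 * Real.pi * R ^ 2 * M + (∫ y, ‖g y‖) / R) := by
  obtain ⟨h1, h2⟩ := sing_one g hm M hM hi x
  have hle : ∀ y, ‖gk k ‖x - y‖ * g y‖ ≤ (4 * Real.pi)⁻¹ * (‖g y‖ / ‖x - y‖) := by
    intro y
    rw [norm_mul]
    calc ‖gk k ‖x - y‖‖ * ‖g y‖ ≤ ((4 * Real.pi)⁻¹ * (1 / ‖x - y‖)) * ‖g y‖ := by
          gcongr; exact gk_norm_le k hk _ (norm_nonneg _)
      _ = _ := by ring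
  have hme : AEStronglyMeasurable (fun y => gk k ‖x - y‖ * g y) volume := by
    apply Measurable.aestronglyMeasurable
    exact ((meas_gk k).comp (measurable_const.sub measurable_id).norm).mul hm
  have h3 : Integrable (fun y => gk k ‖x - y‖ * g y) volume :=
    (h1.const_mul _).mono' hme (Filter.Eventually.of_forall hle)
  refine ⟨h3, fun R hR => ?_⟩
  calc ‖∫ y, gk k ‖x - y‖ * g y‖ ≤ ∫ y, (4 * Real.pi)⁻¹ * (‖g y‖ / ‖x - y‖) :=
        norm_integral_le_of_norm_le (h1.const_mul _) (Filter.Eventually.of_forall hle)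
    _ = (4 * Real.pi)⁻¹ * ∫ y, ‖g y‖ / ‖x - y‖ := integral_const_mul _ _
    _ ≤ _ := by gcongr; exact h2 R hR

theorem Pot.mul_ev {V : E3 → ℂ} (hV : Pot V) (u : S) :
    Measurable (fun y => V y * ev u y) ∧ Integrable (fun y => V y * ev u y) volume ∧
    ∀ y, ‖V y * ev u y‖ ≤ ‖u‖ * ‖V y‖ := by
  have h1 : Measurable (fun y => V y * ev u y) := hV.meas.mul (meas_ev u)
  have h2 : ∀ y, ‖V y * ev u y‖ ≤ ‖u‖ * ‖V y‖ := by
    intro y
    rw [norm_mul, mul_comm]
    gcongr
    exact ev_le u y
  refine ⟨h1, ?_, h2⟩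
  exact (hV.int.norm.const_mul ‖u‖).mono' h1.aestronglyMeasurable
    (Filter.Eventually.of_forall h2)

/-- the operator bound for a potential `|V| ≤ M`, `∫|V| ≤ I` -/
noncomputable def cst (M I : ℝ) : ℝ := (4 * Real.pi)⁻¹ * (2 * Real.pi * M + I)

theorem T_exists (k : ℂ) (hk : 0 ≤ k.im) (V : E3 → ℂ) (hV : Pot V) :
    ∃ L : S →L[ℂ] S, ∀ (u : S) (x : E3),
    ev (L u) x = ∫ y, gk k ‖x - y‖ * (V y * ev u y) := by
  obtain ⟨M, hM⟩ := hV.bdd
  have hM0 : 0 ≤ M := (norm_nonneg _).trans (hM 0)
  have key := fun u : S => fun x : E3 =>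
    ker_int k hk (fun y => V y * ev u y) (hV.mul_ev u).1 (‖u‖ * M)
      (fun y => ((hV.mul_ev u).2.2 y).trans (by gcongr; exact hM y)) (hV.mul_ev u).2.1 x
  refine (exists_op (fun u x => ∫ y, gk k ‖x - y‖ * (V y * ev u y))
    (cst M (∫ y, ‖V y‖)) (by
      unfold cst
      have : 0 ≤ ∫ y, ‖V y‖ := integral_nonneg (fun _ => norm_nonneg _)
      positivity) ?_ ?_ ?_ ?_).imp fun L hL => hL.1
  · intro u
    refine ⟨?_, ?_, ?_⟩
    · have h := meas_ker k (fun y => V y * ev u y) (hV.mul_ev u).1
      exact (h.stronglyMeasurable.integral_prod_right).measurable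
    · intro x
      rw [← integral_neg_E3, ← integral_neg]
      refine integral_congr_ae (Filter.Eventually.of_forall fun y => ?_)
      simp only
      rw [hV.neg, (cls_ev u).neg]
      have : ‖-x - -y‖ = ‖x - y‖ := by rw [← norm_neg]; congr 1; abel
      rw [this]; ring
    · intro x
      rw [← integral_iso (rf 2)]
      refine integral_congr_ae (Filter.Eventually.of_forall fun y => ?_)
      simp only
      rw [hV.refl, (cls_ev u).refl, ← map_sub, LinearIsometryEquiv.norm_map]
  · intro u x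
    refine ((key u x).2 1 one_pos).trans ?_
    have hI : ∫ y, ‖V y * ev u y‖ ≤ ‖u‖ * ∫ y, ‖V y‖ := by
      rw [← integral_const_mul]
      exact integral_mono_of_nonneg (Filter.Eventually.of_forall fun _ => norm_nonneg _)
        (hV.int.norm.const_mul _) (Filter.Eventually.of_forall (hV.mul_ev u).2.2)
    have hp : 0 ≤ (4 * Real.pi)⁻¹ := by positivity
    calc (4 * Real.pi)⁻¹ * (2 * Real.pi * 1 ^ 2 * (‖u‖ * M) + (∫ y, ‖V y * ev u y‖) / 1)
        ≤ (4 * Real.pi)⁻¹ * (2 * Real.pi * 1 ^ 2 * (‖u‖ * M) + (‖u‖ * ∫ y, ‖V y‖) / 1) := by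
          gcongr
      _ = cst M (∫ y, ‖V y‖) * ‖u‖ := by unfold cst; ring
  · intro u v x
    rw [← integral_add (key u x).1 (key v x).1]
    refine integral_congr_ae (Filter.Eventually.of_forall fun y => ?_)
    simp only [ev_add]; ring
  · intro c u x
    rw [← integral_const_mul]
    refine integral_congr_ae (Filter.Eventually.of_forall fun y => ?_)
    simp only [ev_smul]; ring

theorem T_spec (k : ℂ) (hk : 0 ≤ k.im) (V : E3 → ℂ) (hV : Pot V) (u : S) (x : E3) :
    ev (T k V u) x = ∫ y, gk k ‖x - y‖ * (V y * ev u y) := by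
  have h := T_exists k hk V hV
  unfold T
  rw [dif_pos h]
  exact h.choose_spec u x

theorem integrableOn_coord (j : Fin 3) (g : E3 → ℂ) (hm : Measurable g) (M : ℝ)
    (hM : ∀ y, ‖g y‖ ≤ M) :
    IntegrableOn (fun y : E3 => (y j : ℂ) * g y) (Metric.ball (0 : E3) 1) volume := by
  have hM0 : 0 ≤ M := (norm_nonneg _).trans (hM 0)
  apply Measure.integrableOn_of_bounded (M := M)
  · exact (measure_ball_lt_top).ne
  · apply Measurable.aestronglyMeasurable
    exact (Complex.measurable_ofReal.comp (by fun_prop)).mul hm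
  · rw [ae_restrict_iff' measurableSet_ball]
    refine Filter.Eventually.of_forall fun y hy => ?_
    rw [norm_mul, Complex.norm_real]
    have h1 : ‖y j‖ ≤ 1 := (PiLp.norm_apply_le y j).trans (by
      rw [mem_ball_zero_iff] at hy; exact hy.le)
    calc ‖y j‖ * ‖g y‖ ≤ 1 * M := by gcongr; exact hM y
      _ = M := one_mul _

theorem mom_exists (j : Fin 3) : ∃ L : S →L[ℂ] ℂ, ∀ u : S,
    L u = ∫ y in Metric.ball (0 : E3) 1, (y j : ℂ) * ev u y := by
  refine (exists_fun (fun u => ∫ y in Metric.ball (0 : E3) 1, (y j : ℂ) * ev u y)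
    ((volume (Metric.ball (0 : E3) 1)).toReal) ENNReal.toReal_nonneg ?_ ?_ ?_).imp
    fun L hL => hL.1
  · intro u
    have := norm_setIntegral_le_of_norm_le_const (μ := volume) (s := Metric.ball (0 : E3) 1)
      (f := fun y => (y j : ℂ) * ev u y) (C := ‖u‖) (measure_ball_lt_top) ?_
    · refine this.trans (le_of_eq ?_)
      rw [mul_comm]; rfl
    · intro y hy
      rw [norm_mul, Complex.norm_real]
      have h1 : ‖y j‖ ≤ 1 := (PiLp.norm_apply_le y j).trans (by
        rw [mem_ball_zero_iff] at hy; exact hy.le)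
      calc ‖y j‖ * ‖ev u y‖ ≤ 1 * ‖u‖ := by gcongr; exact ev_le u y
        _ = ‖u‖ := one_mul _
  · intro u v
    rw [← integral_add (integrableOn_coord j _ (meas_ev u) _ (ev_le u))
      (integrableOn_coord j _ (meas_ev v) _ (ev_le v))]
    refine integral_congr_ae (Filter.Eventually.of_forall fun y => ?_)
    simp only [ev_add]; ring
  · intro c u
    rw [← integral_const_mul]
    refine integral_congr_ae (Filter.Eventually.of_forall fun y => ?_)
    simp only [ev_smul]; ring

theorem mom_spec (j : Fin 3) (u : S) :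
    mom j u = ∫ y in Metric.ball (0 : E3) 1, (y j : ℂ) * ev u y := by
  have h := mom_exists j
  unfold mom
  rw [dif_pos h]
  exact h.choose_spec u

/-- the source `y_j 1_{|y|<1}` -/
noncomputable def src (j : Fin 3) (y : E3) : ℂ :=
  (Metric.ball (0 : E3) 1).indicator (fun y => (y j : ℂ)) y

theorem src_meas (j : Fin 3) : Measurable (src j) :=
  (Complex.measurable_ofReal.comp (by fun_prop)).indicator measurableSet_ball

theorem src_le (j : Fin 3) (y : E3) : ‖src j y‖ ≤ 1 := by
  unfold src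
  by_cases hy : y ∈ Metric.ball (0 : E3) 1
  · rw [Set.indicator_of_mem hy, Complex.norm_real]
    exact (PiLp.norm_apply_le y j).trans (by rw [mem_ball_zero_iff] at hy; exact hy.le)
  · rw [Set.indicator_of_notMem hy]; simp

theorem src_int (j : Fin 3) : Integrable (src j) volume := by
  unfold src
  have := integrableOn_coord j (fun _ => 1) measurable_const 1 (by simp)
  simp only [mul_one] at this
  exact this.integrable_indicator measurableSet_ball

theorem setInt_src (j : Fin 3) (g : E3 → ℂ) :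
    ∫ y in Metric.ball (0 : E3) 1, g y * (y j : ℂ) = ∫ y, g y * src j y := by
  rw [← integral_indicator measurableSet_ball]
  refine integral_congr_ae (Filter.Eventually.of_forall fun y => ?_)
  unfold src
  by_cases hy : y ∈ Metric.ball (0 : E3) 1
  · simp only [Set.indicator_of_mem hy]
  · simp only [Set.indicator_of_notMem hy, mul_zero]

theorem src_neg (j : Fin 3) (y : E3) : src j (-y) = - src j y := by
  unfold src
  have h : (-y ∈ Metric.ball (0 : E3) 1) ↔ (y ∈ Metric.ball (0 : E3) 1) := by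
    simp [mem_ball_zero_iff]
  by_cases hy : y ∈ Metric.ball (0 : E3) 1
  · rw [Set.indicator_of_mem hy, Set.indicator_of_mem (h.2 hy)]; simp
  · rw [Set.indicator_of_notMem hy, Set.indicator_of_notMem (fun hh => hy (h.1 hh))]; simp

theorem src_refl (j : Fin 3) (hj : j ≠ 2) (y : E3) : src j (rf 2 y) = src j y := by
  unfold src
  have h : (rf 2 y ∈ Metric.ball (0 : E3) 1) ↔ (y ∈ Metric.ball (0 : E3) 1) := by
    simp [mem_ball_zero_iff]
  by_cases hy : y ∈ Metric.ball (0 : E3) 1
  · rw [Set.indicator_of_mem hy, Set.indicator_of_mem (h.2 hy), rf_apply, if_neg hj]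
  · rw [Set.indicator_of_notMem hy, Set.indicator_of_notMem (fun hh => hy (h.1 hh))]

theorem psi_exists (j : Fin 3) (hj : j ≠ 2) : ∃ u : S, ∀ x : E3,
    ev u x = ∫ y in Metric.ball (0 : E3) 1, gk 0 ‖x - y‖ * (y j : ℂ) := by
  have h0 : (0 : ℝ) ≤ (0 : ℂ).im := by simp
  have key := fun x => ker_int 0 h0 (src j) (src_meas j) 1 (src_le j) (src_int j) x
  apply exists_ev _ _ ((4 * Real.pi)⁻¹ * (2 * Real.pi * 1 ^ 2 * 1 + (∫ y, ‖src j y‖) / 1))
  · intro x
    rw [setInt_src]
    exact (key x).2 1 one_pos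
  · simp_rw [setInt_src]
    refine ⟨?_, ?_, ?_⟩
    · have h := meas_ker 0 (src j) (src_meas j)
      exact (h.stronglyMeasurable.integral_prod_right).measurable
    · intro x
      rw [← integral_neg_E3, ← integral_neg]
      refine integral_congr_ae (Filter.Eventually.of_forall fun y => ?_)
      simp only
      rw [src_neg]
      have : ‖-x - -y‖ = ‖x - y‖ := by rw [← norm_neg]; congr 1; abel
      rw [this]; ring
    · intro x
      rw [← integral_iso (rf 2)]
      refine integral_congr_ae (Filter.Eventually.of_forall fun y => ?_)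
      simp only
      rw [src_refl j hj, ← map_sub, LinearIsometryEquiv.norm_map]

theorem psi_spec (j : Fin 3) (hj : j ≠ 2) (x : E3) :
    ev (psi j) x = ∫ y in Metric.ball (0 : E3) 1, gk 0 ‖x - y‖ * (y j : ℂ) := by
  have h := psi_exists j hj
  unfold psi
  rw [dif_pos h]
  exact h.choose_spec x

theorem Rot_exists (α : ℝ) : ∃ L : S →L[ℂ] S, ∀ (u : S) (x : E3),
    ev (L u) x = ev u (rot α x) := by
  refine (exists_op (fun u x => ev u (rot α x)) 1 zero_le_one ?_ ?_ ?_ ?_).imp
    fun L hL => hL.1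
  · intro u
    refine ⟨(meas_ev u).comp (rot α).continuous.measurable, ?_, ?_⟩
    · intro x; rw [map_neg, (cls_ev u).neg]
    · intro x
      have : rot α (rf 2 x) = rf 2 (rot α x) := by
        ext i
        rw [rf_apply]
        fin_cases i
        · show rotFun α (rf 2 x) 0 = rotFun α x 0
          simp only [rotFun_zero', rf_apply]
          simp
        · show rotFun α (rf 2 x) 1 = rotFun α x 1
          simp only [rotFun_one', rf_apply]
          simp
        · show rotFun α (rf 2 x) 2 = - rotFun α x 2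
          simp only [rotFun_two', rf_apply]
          simp
      rw [this, (cls_ev u).refl]
  · intro u x; rw [one_mul]; exact ev_le u _
  · intro u v x; rw [ev_add]
  · intro c u x; rw [ev_smul]

theorem Rot_spec (α : ℝ) (u : S) (x : E3) : ev (Rot α u) x = ev u (rot α x) := by
  have h := Rot_exists α
  unfold Rot
  rw [dif_pos h]
  exact h.choose_spec u x

end Pool.Agent.Helper16.CE
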